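import Pool.Agent.Lib.MP_c25556_co.Counting

open Finset Function SimpleGraph

namespace Pool.Agent.Lib.MP_c25556_co

variable {W V : Type*}

/-- Lower bound for rooted copies inside a clique. -/
lemma clique_lb1 [Fintype W] [Fintype V] [DecidableEq V] (F : SimpleGraph W) (r : W)
    (G : SimpleGraph V) (K : Finset V) (hK : ∀ x ∈ K, ∀ y ∈ K, x ≠ y → G.Adj x y) (x : V)
    (hx : x ∈ K) :
    (K.card - 1).descFactorial (Fintype.card W - 1) ≤ (X F r G x).ncard := by
  classical
  have h := descFactorial_le_ncard ({r} : Finset W) (fun _ => x) (K.erase x) (X F r G x) ?_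
  · rwa [card_singleton, card_erase_of_mem hx] at h
  · intro φ h1 h2 h3
    have hr : φ r = x := h1 r (mem_singleton_self r)
    have hmem : ∀ w, φ w ∈ K := by
      intro w
      by_cases hw : w ∈ ({r} : Finset W)
      · rw [h1 w hw]; exact hx
      · exact mem_of_mem_erase (h2 w hw)
    have hinj : Injective φ := by
      intro a b hab
      by_cases ha : a ∈ ({r} : Finset W) <;> by_cases hb : b ∈ ({r} : Finset W)
      · rw [mem_singleton] at ha hb; rw [ha, hb]
      · have := ne_of_mem_erase (h2 b hb)
        rw [← hab, h1 a ha] at this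
        exact absurd rfl this
      · have := ne_of_mem_erase (h2 a ha)
        rw [hab, h1 b hb] at this
        exact absurd rfl this
      · exact h3 a b ha hb hab
    exact ⟨hinj, fun a b hab => hK _ (hmem a) _ (hmem b) (fun h => hab.ne (hinj h)), hr⟩

/-- Lower bound for rooted copies inside a clique with a second prescribed vertex. -/
lemma clique_lb2 [Fintype W] [Fintype V] [DecidableEq V] (F : SimpleGraph W) (r c0 : W)
    (hc0 : c0 ≠ r) (G : SimpleGraph V) (K : Finset V)
    (hK : ∀ x ∈ K, ∀ y ∈ K, x ≠ y → G.Adj x y) (x y : V)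
    (hx : x ∈ K) (hy : y ∈ K) (hxy : x ≠ y) :
    (K.card - 2).descFactorial (Fintype.card W - 2) ≤ {φ ∈ X F r G x | φ c0 = y}.ncard := by
  classical
  have h := descFactorial_le_ncard ({r, c0} : Finset W) (fun w => if w = r then x else y)
    (K \ {x, y}) {φ ∈ X F r G x | φ c0 = y} ?_
  · rw [card_pair hc0.symm, card_sdiff_of_subset (by
      intro z hz; simp only [mem_insert, mem_singleton] at hz
      rcases hz with rfl | rfl <;> assumption), card_pair hxy] at h
    exact h
  · intro φ h1 h2 h3
    have hr : φ r = x := by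
      have := h1 r (by simp)
      simpa using this
    have hc : φ c0 = y := by
      have := h1 c0 (by simp)
      simpa [hc0] using this
    have hmem : ∀ w, φ w ∈ K := by
      intro w
      by_cases hw : w ∈ ({r, c0} : Finset W)
      · rw [mem_insert, mem_singleton] at hw
        rcases hw with rfl | rfl
        · rw [hr]; exact hx
        · rw [hc]; exact hy
      · exact (mem_sdiff.mp (h2 w hw)).1
    have hnot : ∀ w, w ∉ ({r, c0} : Finset W) → φ w ≠ x ∧ φ w ≠ y := by
      intro w hw
      have := (mem_sdiff.mp (h2 w hw)).2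
      simpa using this
    have hinj : Injective φ := by
      intro a b hab
      by_cases ha : a ∈ ({r, c0} : Finset W) <;> by_cases hb : b ∈ ({r, c0} : Finset W)
      · rw [mem_insert, mem_singleton] at ha hb
        rcases ha with rfl | rfl <;> rcases hb with rfl | rfl
        · rfl
        · rw [hr, hc] at hab; exact absurd hab hxy
        · rw [hr, hc] at hab; exact absurd hab.symm hxy
        · rfl
      · have hn := hnot b hb
        rw [mem_insert, mem_singleton] at ha
        rcases ha with rfl | rfl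
        · rw [← hab] at hn; exact absurd hr hn.1
        · rw [← hab] at hn; exact absurd hc hn.2
      · have hn := hnot a ha
        rw [mem_insert, mem_singleton] at hb
        rcases hb with rfl | rfl
        · rw [hab] at hn; exact absurd hr hn.1
        · rw [hab] at hn; exact absurd hc hn.2
      · exact h3 a b ha hb hab
    exact ⟨⟨hinj, fun a b hab => hK _ (hmem a) _ (hmem b) (fun h => hab.ne (hinj h)), hr⟩, hc⟩

/-- Upper bound for the functions with `φ r = x0` and two further prescribed values. -/
lemma pair_ub [Fintype W] [Fintype V] [DecidableEq V] (r : W) (x0 : V) (P : Finset (V × V))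
    (hP : ∀ p ∈ P, p.1 ≠ p.2 ∧ p.1 ≠ x0 ∧ p.2 ≠ x0) :
    {φ : W → V | φ r = x0 ∧ ∃ w w', (φ w, φ w') ∈ P}.ncard
      ≤ Fintype.card W ^ 2 * P.card * Fintype.card V ^ (Fintype.card W - 3) := by
  classical
  have hsub : {φ : W → V | φ r = x0 ∧ ∃ w w', (φ w, φ w') ∈ P}
      ⊆ ⋃ i : (W × W) × {p // p ∈ P}, {φ : W → V | φ r = x0 ∧ φ i.1.1 = i.2.1.1 ∧
        φ i.1.2 = i.2.1.2} := by
    rintro φ ⟨h1, w, w', h2⟩
    rw [Set.mem_iUnion]
    exact ⟨⟨⟨w, w'⟩, ⟨(φ w, φ w'), h2⟩⟩, h1, rfl, rfl⟩
  have hle : ∀ i : (W × W) × {p // p ∈ P}, {φ : W → V | φ r = x0 ∧ φ i.1.1 = i.2.1.1 ∧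
        φ i.1.2 = i.2.1.2}.ncard ≤ Fintype.card V ^ (Fintype.card W - 3) := by
    rintro ⟨⟨w, w'⟩, ⟨⟨a, b⟩, hp⟩⟩
    obtain ⟨hab, ha, hb⟩ := hP _ hp
    simp only at hab ha hb ⊢
    by_cases hne : ({φ : W → V | φ r = x0 ∧ φ w = a ∧ φ w' = b}).Nonempty
    · obtain ⟨φ, h1, h2, h3⟩ := hne
      have hrw : r ≠ w := by
        rintro rfl
        exact ha (h2.symm.trans h1)
      have hrw' : r ≠ w' := by
        rintro rfl
        exact hb (h3.symm.trans h1)
      have hww' : w ≠ w' := by
        rintro rfl
        exact hab (h2.symm.trans h3)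
      have hcard : ({r, w, w'} : Finset W).card = 3 := by
        rw [card_insert_of_notMem, card_pair hww']
        simp [hrw, hrw']
      rw [← hcard]
      apply ncard_le_pow
      rintro φ ⟨h1, h2, h3⟩ ψ ⟨h4, h5, h6⟩ hag
      funext z
      by_cases hz : z ∈ ({r, w, w'} : Finset W)
      · simp only [mem_insert, mem_singleton] at hz
        rcases hz with rfl | rfl | rfl
        · rw [h1, h4]
        · rw [h2, h5]
        · rw [h3, h6]
      · exact hag z hz
    · rw [Set.not_nonempty_iff_eq_empty] at hne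
      rw [hne, Set.ncard_empty]
      exact Nat.zero_le _
  calc _ ≤ _ := Set.ncard_le_ncard hsub
    _ ≤ ∑ i : (W × W) × {p // p ∈ P}, _ := Set.ncard_iUnion_le_of_fintype _
    _ ≤ ∑ i : (W × W) × {p // p ∈ P}, Fintype.card V ^ (Fintype.card W - 3) :=
        Finset.sum_le_sum (fun i _ => hle i)
    _ = Fintype.card W ^ 2 * P.card * Fintype.card V ^ (Fintype.card W - 3) := by
        rw [sum_const, smul_eq_mul, card_univ]
        congr 1
        simp [Fintype.card_prod, sq]

end Pool.Agent.Lib.MP_c25556_co
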