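import Mathlib

open Finset Function SimpleGraph

namespace Pool.Agent.Lib.MP_c25556_co

variable {W V V' : Type*}

/-- Injective homomorphisms `φ : F → G` (as plain functions) with `φ r = x`. -/
def X (F : SimpleGraph W) (r : W) (G : SimpleGraph V) (x : V) : Set (W → V) :=
  {φ | Injective φ ∧ (∀ u v, F.Adj u v → G.Adj (φ u) (φ v)) ∧ φ r = x}

/-- A general upper bound: functions determined by their restriction to the complement of `T`. -/
lemma ncard_le_pow [Fintype W] [Fintype V] (T : Finset W) (P : Set (W → V))
    (h : ∀ φ ∈ P, ∀ ψ ∈ P, (∀ w, w ∉ T → φ w = ψ w) → φ = ψ) :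
    P.ncard ≤ Fintype.card V ^ (Fintype.card W - T.card) := by
  classical
  have h1 : P.ncard ≤ (Set.univ : Set ({w // w ∉ T} → V)).ncard := by
    apply Set.ncard_le_ncard_of_injOn (fun φ => fun w : {w // w ∉ T} => φ w.1)
    · intro a _; exact Set.mem_univ _
    · intro φ hφ ψ hψ heq
      apply h φ hφ ψ hψ
      intro w hw
      exact congrFun heq ⟨w, hw⟩
  have h2 : (Set.univ : Set ({w // w ∉ T} → V)).ncard
      = Fintype.card V ^ (Fintype.card W - T.card) := by
    rw [Set.ncard_univ, Nat.card_eq_fintype_card, Fintype.card_fun]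
    congr 1
    simp [Fintype.card_subtype_compl]
  rw [h2] at h1
  exact h1

/-- A general lower bound: prescribe `φ` on `T`, and let it be an arbitrary injection of the
complement of `T` into `K`. -/
lemma descFactorial_le_ncard [Fintype W] [Fintype V] (T : Finset W) (f : W → V) (K : Finset V)
    (P : Set (W → V))
    (h : ∀ φ : W → V, (∀ w, w ∈ T → φ w = f w) → (∀ w, w ∉ T → φ w ∈ K) →
      (∀ w w', w ∉ T → w' ∉ T → φ w = φ w' → w = w') → φ ∈ P) :
    K.card.descFactorial (Fintype.card W - T.card) ≤ P.ncard := by
  classical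
  have hc : Fintype.card ({w // w ∉ T} ↪ {x // x ∈ K})
      = K.card.descFactorial (Fintype.card W - T.card) := by
    rw [Fintype.card_embedding_eq]
    congr 1
    · simp
    · simp [Fintype.card_subtype_compl]
  rw [← hc, ← Nat.card_eq_fintype_card, ← Set.ncard_univ]
  apply Set.ncard_le_ncard_of_injOn
    (fun e : ({w // w ∉ T} ↪ {x // x ∈ K}) => fun w => if hw : w ∈ T then f w else (e ⟨w, hw⟩ : V))
  · intro e _
    apply h
    · intro w hw; simp [hw]
    · intro w hw; simp [hw]
    · intro w w' hw hw' heq
      simp only [hw, hw', dif_neg, not_false_eq_true] at heq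
      have := e.injective (Subtype.ext heq)
      simpa using this
  · intro e _ e' _ heq
    ext w
    have := congrFun heq w.1
    simpa [w.2] using this

end Pool.Agent.Lib.MP_c25556_co
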