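import Mathlib

namespace Pool.Agent.Lib.MP_c25556_co

variable {W V : Type*}

/-- The rooted degree of the vertex `v` of `G` with respect to the graph `F` with root `r`:
the number of subgraphs `H` of `G` such that some isomorphism `φ : F → H` has `φ r = v`. -/
noncomputable def rootedDeg (F : SimpleGraph W) (r : W) (G : SimpleGraph V) (v : V) : ℕ :=
  Nat.card {H : G.Subgraph // ∃ φ : F ≃g H.coe, (φ r : V) = v}

/-- `G` is irregular with respect to `F` rooted at `r`: distinct vertices have distinct
rooted degrees. -/
def RootedIrregular (F : SimpleGraph W) (r : W) (G : SimpleGraph V) : Prop :=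
  ∀ u v : V, u ≠ v → rootedDeg F r G u ≠ rootedDeg F r G v

end Pool.Agent.Lib.MP_c25556_co
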