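import Pool.Agent.Lib.MP_c25556_co.Defs
import Pool.Agent.Lib.MP_c25556_co.Counting

open Finset Function SimpleGraph

namespace Pool.Agent.Lib.MP_c25556_co

variable {W V V' : Type*}

/-- Automorphisms of `F` fixing the root. -/
abbrev RAut (F : SimpleGraph W) (r : W) : Type _ := {ψ : F ≃g F // ψ r = r}

/-- The copy (as a function) associated with a root-fixing automorphism and a rooted subgraph. -/
noncomputable def copyFun (F : SimpleGraph W) (r : W) (G : SimpleGraph V) (x : V)
    (p : RAut F r × {H : G.Subgraph // ∃ φ : F ≃g H.coe, (φ r : V) = x}) : W → V :=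
  fun w => ((Classical.choose p.2.2) (p.1.1 w) : V)

lemma copyFun_mem (F : SimpleGraph W) (r : W) (G : SimpleGraph V) (x : V)
    (p : RAut F r × {H : G.Subgraph // ∃ φ : F ≃g H.coe, (φ r : V) = x}) :
    copyFun F r G x p ∈ X F r G x := by
  refine ⟨?_, ?_, ?_⟩
  · intro a b hab
    have h1 := Subtype.ext hab
    have h2 := (Classical.choose p.2.2).injective h1
    exact p.1.1.injective h2
  · intro u v huv
    have h1 : F.Adj (p.1.1 u) (p.1.1 v) := p.1.1.map_rel_iff.mpr huv
    have h2 := (Classical.choose p.2.2).map_rel_iff.mpr h1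
    exact p.2.1.adj_sub h2
  · have := Classical.choose_spec p.2.2
    unfold copyFun
    rw [p.1.2]
    exact this

lemma copyFun_injective (F : SimpleGraph W) (r : W) (G : SimpleGraph V) (x : V) :
    Injective (copyFun F r G x) := by
  rintro ⟨ψ, H⟩ ⟨ψ', H'⟩ heq
  have hverts : ∀ (p : RAut F r × {H : G.Subgraph // ∃ φ : F ≃g H.coe, (φ r : V) = x}),
      p.2.1.verts = Set.range (copyFun F r G x p) := by
    intro p
    ext v
    constructor
    · intro hv
      refine ⟨p.1.1.symm ((Classical.choose p.2.2).symm ⟨v, hv⟩), ?_⟩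
      simp [copyFun]
    · rintro ⟨w, rfl⟩
      exact ((Classical.choose p.2.2) (p.1.1 w)).2
  have hadj : ∀ (p : RAut F r × {H : G.Subgraph // ∃ φ : F ≃g H.coe, (φ r : V) = x}) (a b : V),
      p.2.1.Adj a b ↔ ∃ u v, F.Adj u v ∧ copyFun F r G x p u = a ∧ copyFun F r G x p v = b := by
    intro p a b
    constructor
    · intro hab
      have ha := p.2.1.edge_vert hab
      have hb := p.2.1.edge_vert hab.symm
      refine ⟨p.1.1.symm ((Classical.choose p.2.2).symm ⟨a, ha⟩),
        p.1.1.symm ((Classical.choose p.2.2).symm ⟨b, hb⟩), ?_, ?_, ?_⟩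
      · rw [p.1.1.symm.map_rel_iff, (Classical.choose p.2.2).symm.map_rel_iff]
        exact hab
      · simp [copyFun]
      · simp [copyFun]
    · rintro ⟨u, v, huv, rfl, rfl⟩
      have h1 : F.Adj (p.1.1 u) (p.1.1 v) := p.1.1.map_rel_iff.mpr huv
      exact (Classical.choose p.2.2).map_rel_iff.mpr h1
  have hH : H = H' := by
    apply Subtype.ext
    apply SimpleGraph.Subgraph.ext
    · rw [hverts ⟨ψ, H⟩, hverts ⟨ψ', H'⟩, heq]
    · ext a b
      rw [hadj ⟨ψ, H⟩, hadj ⟨ψ', H'⟩, heq]
  subst hH
  have hψ : ψ = ψ' := by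
    apply Subtype.ext
    ext w
    have h1 := congrFun heq w
    have h2 := (Classical.choose H.2).injective (Subtype.ext h1)
    exact h2
  rw [hψ]

lemma copyFun_surjective (F : SimpleGraph W) (r : W) (G : SimpleGraph V) (x : V) (φ : W → V)
    (hφ : φ ∈ X F r G x) : ∃ p, copyFun F r G x p = φ := by
  obtain ⟨hinj, hhom, hr⟩ := hφ
  let f : Copy F G := ⟨⟨φ, fun {a b} h => hhom a b h⟩, hinj⟩
  let e : F ≃g f.toSubgraph.coe := f.isoToSubgraph
  have he : ∀ w, (e w : V) = φ w := by
    intro w
    rfl
  have hH : ∃ φ' : F ≃g f.toSubgraph.coe, (φ' r : V) = x := ⟨e, by rw [he, hr]⟩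
  let g : F ≃g f.toSubgraph.coe := Classical.choose hH
  have hg : (g r : V) = x := Classical.choose_spec hH
  refine ⟨⟨⟨e.trans g.symm, ?_⟩, ⟨f.toSubgraph, hH⟩⟩, ?_⟩
  · have : e r = g r := by
      apply Subtype.ext
      rw [hg, he, hr]
    simp [this]
  · funext w
    change ((g (g.symm (e w)) : f.toSubgraph.verts) : V) = φ w
    rw [RelIso.apply_symm_apply, he]

lemma ncard_X_eq [Finite W] [Finite V] (F : SimpleGraph W) (r : W) (G : SimpleGraph V) (x : V) :
    (X F r G x).ncard = Nat.card (RAut F r) * rootedDeg F r G x := by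
  have hrange : X F r G x = Set.range (copyFun F r G x) := by
    ext φ
    constructor
    · intro h; exact copyFun_surjective F r G x φ h
    · rintro ⟨p, rfl⟩; exact copyFun_mem F r G x p
  rw [hrange, ← Set.image_univ, Set.ncard_image_of_injective _ (copyFun_injective F r G x),
    Set.ncard_univ, Nat.card_prod]
  rfl

instance [Finite W] (F : SimpleGraph W) (r : W) : Finite (RAut F r) := by
  have : Finite (F ≃g F) := Finite.of_injective (fun e => (e : W → W)) DFunLike.coe_injective
  infer_instance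

lemma card_RAut_pos [Finite W] (F : SimpleGraph W) (r : W) : 0 < Nat.card (RAut F r) := by
  have : Nonempty (RAut F r) := ⟨⟨RelIso.refl _, rfl⟩⟩
  exact Nat.card_pos

lemma rootedDeg_iso [Finite W] [Finite V] [Finite V'] (F : SimpleGraph W) (r : W)
    (G : SimpleGraph V) (G' : SimpleGraph V') (e : G ≃g G') (x : V) :
    rootedDeg F r G x = rootedDeg F r G' (e x) := by
  have h : (X F r G x).ncard = (X F r G' (e x)).ncard := by
    have himg : X F r G' (e x) = (fun φ : W → V => (e : V → V') ∘ φ) '' X F r G x := by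
      ext ψ
      constructor
      · rintro ⟨h1, h2, h3⟩
        refine ⟨(e.symm : V' → V) ∘ ψ, ⟨e.symm.injective.comp h1, ?_, ?_⟩, ?_⟩
        · intro u v huv
          exact e.symm.map_rel_iff.mpr (h2 u v huv)
        · simp [h3]
        · funext w; simp
      · rintro ⟨φ, ⟨h1, h2, h3⟩, rfl⟩
        refine ⟨e.injective.comp h1, ?_, ?_⟩
        · intro u v huv
          exact e.map_rel_iff.mpr (h2 u v huv)
        · simp [h3]
    rw [himg, Set.ncard_image_of_injective]
    intro φ ψ h
    funext w
    exact e.injective (congrFun h w)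
  rw [ncard_X_eq, ncard_X_eq] at h
  exact Nat.eq_of_mul_eq_mul_left (card_RAut_pos F r) h

lemma rootedIrregular_of_ncard [Finite W] [Finite V] (F : SimpleGraph W) (r : W)
    (G : SimpleGraph V) (h : ∀ u v : V, (X F r G u).ncard = (X F r G v).ncard → u = v) :
    RootedIrregular F r G := by
  intro u v huv heq
  apply huv
  apply h
  rw [ncard_X_eq, ncard_X_eq, heq]

lemma rootedIrregular_iso [Finite W] [Finite V] [Finite V'] (F : SimpleGraph W) (r : W)
    (G : SimpleGraph V) (G' : SimpleGraph V') (e : G ≃g G') (h : RootedIrregular F r G) :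
    RootedIrregular F r G' := by
  intro u v huv
  have := h (e.symm u) (e.symm v) (fun h => huv (e.symm.injective h))
  rwa [rootedDeg_iso F r G G' e, rootedDeg_iso F r G G' e, RelIso.apply_symm_apply,
    RelIso.apply_symm_apply] at this

end Pool.Agent.Lib.MP_c25556_co
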