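import Pool.Agent.Lib.MP_c25556_co.Host
import Pool.Agent.Lib.MP_c25556_co.Clique

open Finset Function SimpleGraph

namespace Pool.Agent.Lib.MP_c25556_co

variable {W : Type*} {M : ℕ}

/-- A finite set is at least as large as the sum of its fibres. -/
lemma mul_le_ncard_of_fibers {α β : Type*} (Z : Set α) (hZ : Z.Finite) (f : α → β) (T : Finset β)
    (m : ℕ) (h : ∀ t ∈ T, m ≤ {z ∈ Z | f z = t}.ncard) : T.card * m ≤ Z.ncard := by
  classical
  have key : ∀ T : Finset β, (∀ t ∈ T, m ≤ {z ∈ Z | f z = t}.ncard) →
      T.card * m ≤ {z ∈ Z | f z ∈ T}.ncard := by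
    intro T
    induction T using Finset.induction_on with
    | empty => intro _; simp
    | insert a T ha ih =>
      intro hT
      have h1 := ih (fun t ht => hT t (mem_insert_of_mem ht))
      have h2 := hT a (mem_insert_self a T)
      have hunion : {z ∈ Z | f z ∈ insert a T} = {z ∈ Z | f z ∈ T} ∪ {z ∈ Z | f z = a} := by
        ext z
        simp only [mem_insert, Set.mem_setOf_eq, Set.mem_union]
        tauto
      have hd : Disjoint {z ∈ Z | f z ∈ T} {z ∈ Z | f z = a} := by
        rw [Set.disjoint_left]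
        rintro z ⟨_, hz⟩ ⟨_, hz'⟩
        rw [hz'] at hz
        exact ha hz
      rw [hunion, Set.ncard_union_eq hd (hZ.subset (fun z hz => hz.1))
        (hZ.subset (fun z hz => hz.1)), card_insert_of_notMem ha]
      nlinarith
  refine le_trans (key T h) (Set.ncard_le_ncard (fun z hz => hz.1) hZ)

/-- Index of a vertex (extra vertices get index `M`). -/
def ix (M q : ℕ) : (Bool × Fin M) ⊕ Fin q → ℕ := Sum.elim (fun x => (x.2 : ℕ)) (fun _ => M)

/-- Exchange the two cliques. -/
def fl (M q : ℕ) : (Bool × Fin M) ⊕ Fin q → (Bool × Fin M) ⊕ Fin q :=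
  Sum.map (fun x => (!x.1, x.2)) id

lemma ix_fl (M q : ℕ) (x) : ix M q (fl M q x) = ix M q x := by
  rcases x with x | s <;> rfl

lemma fl_fl (M q : ℕ) (x) : fl M q (fl M q x) = x := by
  rcases x with x | s
  · simp [fl]
  · simp [fl]

lemma fl_injective (M q : ℕ) : Injective (fl M q) := by
  intro a b hab
  rw [← fl_fl M q a, hab, fl_fl]

/-- Tight edges. -/
def Tight (F : SimpleGraph W) (M q : ℕ) (φ : W → (Bool × Fin M) ⊕ Fin q) (u v : W) : Prop :=
  F.Adj u v ∧ ix M q (φ u) + ix M q (φ v) < M

/-- The tight component of the root. -/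
def TK (F : SimpleGraph W) (r : W) (M q : ℕ) (φ : W → (Bool × Fin M) ⊕ Fin q) (u : W) : Prop :=
  Relation.ReflTransGen (Tight F M q φ) r u

lemma TK_congr (F : SimpleGraph W) (r : W) (M q : ℕ) {φ ψ : W → (Bool × Fin M) ⊕ Fin q}
    (h : ∀ w, ix M q (φ w) = ix M q (ψ w)) (u : W) : TK F r M q φ u ↔ TK F r M q ψ u := by
  have : Tight F M q φ = Tight F M q ψ := by
    funext a b
    simp only [Tight, h]
  rw [TK, TK, this]

/-- The copies rooted at `(true,i)` in which the tight component of the root is joined to the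
extra vertex. -/
def Zset (F : SimpleGraph W) (r : W) (M : ℕ) (c : Fin M → Option (Fin 1)) (i : Fin M) :
    Set (W → (Bool × Fin M) ⊕ Fin 1) :=
  {ψ ∈ X F r (host M 1 c) (.inl (true, i)) | ∃ u w, TK F r M 1 ψ u ∧ F.Adj u w ∧ ψ w = .inr 0}

lemma flip_bad_bound [Fintype W] (r : W) (M : ℕ) (i : Fin M) :
    {φ : W → (Bool × Fin M) ⊕ Fin 1 | φ r = .inl (false, i) ∧
      ∃ w a b, φ w = .inr 0 ∧ φ b = fl M 1 (φ a) ∧ r ≠ w ∧ r ≠ b ∧ w ≠ b ∧ a ≠ b ∧ a ≠ w}.ncard
      ≤ Fintype.card W ^ 3 * (2 * M + 1) ^ (Fintype.card W - 3) := by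
  classical
  set S : Set (W → (Bool × Fin M) ⊕ Fin 1) := {φ : W → (Bool × Fin M) ⊕ Fin 1 |
    φ r = .inl (false, i) ∧
      ∃ w a b, φ w = .inr 0 ∧ φ b = fl M 1 (φ a) ∧ r ≠ w ∧ r ≠ b ∧ w ≠ b ∧ a ≠ b ∧ a ≠ w} with hS
  set Q : W × W × W → Set (W → (Bool × Fin M) ⊕ Fin 1) := fun p =>
    {φ | φ r = .inl (false, i) ∧ φ p.1 = .inr 0 ∧ φ p.2.2 = fl M 1 (φ p.2.1) ∧ r ≠ p.1 ∧
      r ≠ p.2.2 ∧ p.1 ≠ p.2.2 ∧ p.2.1 ≠ p.2.2 ∧ p.2.1 ≠ p.1} with hQ
  have hsub : S ⊆ ⋃ p, Q p := by
    rintro φ ⟨h1, w, a, b, h2⟩
    rw [Set.mem_iUnion]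
    exact ⟨(w, a, b), h1, h2⟩
  have hle : ∀ p, (Q p).ncard ≤ (2 * M + 1) ^ (Fintype.card W - 3) := by
    rintro ⟨w, a, b⟩
    by_cases hne : (Q (w, a, b)).Nonempty
    · obtain ⟨φ, h1, h2, h3, hrw, hrb, hwb, hab, haw⟩ := hne
      simp only at hrw hrb hwb hab haw
      have hcard : ({r, w, b} : Finset W).card = 3 := by
        rw [card_insert_of_notMem, card_pair hwb]
        simp [hrw, hrb]
      rw [← hcard, ← card_V (M := M) (q := 1)]
      apply ncard_le_pow
      rintro φ ⟨h1, h2, h3, _⟩ ψ ⟨h4, h5, h6, _⟩ hag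
      simp only at h1 h2 h3 h4 h5 h6
      have haeq : φ a = ψ a := by
        by_cases har : a = r
        · rw [har, h1, h4]
        · exact hag a (by simp [har, haw, hab])
      funext z
      by_cases hz : z ∈ ({r, w, b} : Finset W)
      · simp only [mem_insert, mem_singleton] at hz
        rcases hz with rfl | rfl | rfl
        · rw [h1, h4]
        · rw [h2, h5]
        · rw [h3, h6, haeq]
      · exact hag z hz
    · rw [Set.not_nonempty_iff_eq_empty] at hne
      rw [hne, Set.ncard_empty]
      exact Nat.zero_le _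
  calc S.ncard ≤ _ := Set.ncard_le_ncard hsub (Set.toFinite _)
    _ ≤ ∑ p : W × W × W, _ := Set.ncard_iUnion_le_of_fintype _
    _ ≤ ∑ p : W × W × W, (2 * M + 1) ^ (Fintype.card W - 3) :=
        Finset.sum_le_sum (fun p _ => hle p)
    _ = Fintype.card W ^ 3 * (2 * M + 1) ^ (Fintype.card W - 3) := by
        rw [sum_const, smul_eq_mul, card_univ]
        congr 1
        simp only [Fintype.card_prod]
        ring

/-- Flipping the tight component of the root. -/
lemma flip_lemma [Fintype W] (F : SimpleGraph W) (r : W) (M : ℕ) (c : Fin M → Option (Fin 1))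
    (i : Fin M) :
    (X F r (host M 1 c) (.inl (false, i))).ncard + (Zset F r M c i).ncard
      ≤ (X F r (host M 1 c) (.inl (true, i))).ncard
        + Fintype.card W ^ 3 * (2 * M + 1) ^ (Fintype.card W - 3) := by
  classical
  set XB := X F r (host M 1 c) (.inl (false, i)) with hXB
  set XA := X F r (host M 1 c) (.inl (true, i)) with hXA
  set Bad : Set (W → (Bool × Fin M) ⊕ Fin 1) :=
    {φ | φ r = .inl (false, i) ∧
      ∃ w a b, φ w = .inr 0 ∧ φ b = fl M 1 (φ a) ∧ r ≠ w ∧ r ≠ b ∧ w ≠ b ∧ a ≠ b ∧ a ≠ w}
    with hBad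
  have hBadcard := flip_bad_bound (W := W) r M i
  rw [← hBad] at hBadcard
  -- good maps using the extra vertex have injective index
  have hgood : ∀ φ ∈ XB \ Bad, ∀ w, φ w = .inr 0 → ∀ a b, ix M 1 (φ a) = ix M 1 (φ b) → a = b := by
    rintro φ ⟨⟨hinj, hhom, hr⟩, hnb⟩ w hw a b hab
    by_contra hne
    rcases ha : φ a with xa | sa
    · rcases hb : φ b with xb | sb
      · rw [ha, hb] at hab
        simp only [ix, Sum.elim_inl] at hab
        have hx2 : xa.2 = xb.2 := Fin.ext hab
        have hx1 : xb.1 = !xa.1 := by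
          have : xa.1 ≠ xb.1 := by
            intro h
            apply hne
            apply hinj
            rw [ha, hb, Prod.ext h hx2]
          rcases xa with ⟨_ | _, _⟩ <;> rcases xb with ⟨_ | _, _⟩ <;> simp_all
        have hbfl : φ b = fl M 1 (φ a) := by
          rw [ha, hb]
          simp only [fl, Sum.map_inl]
          congr 1
          exact Prod.ext hx1 hx2.symm
        have hafl : φ a = fl M 1 (φ b) := by
          rw [hbfl, fl_fl]
        have hrw : r ≠ w := by
          rintro rfl
          rw [hw] at hr; simp at hr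
        have haw : a ≠ w := by
          rintro rfl
          rw [ha] at hw; simp at hw
        have hbw : b ≠ w := by
          rintro rfl
          rw [hb] at hw; simp at hw
        by_cases hrb : r = b
        · apply hnb
          refine ⟨hr, w, b, a, hw, hafl, hrw, ?_, haw.symm, Ne.symm hne, hbw⟩
          rw [hrb]; exact Ne.symm hne
        · apply hnb
          exact ⟨hr, w, a, b, hw, hbfl, hrw, hrb, hbw.symm, hne, haw⟩
      · rw [ha, hb] at hab
        simp only [ix, Sum.elim_inl, Sum.elim_inr] at hab
        have := xa.2.2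
        omega
    · rcases hb : φ b with xb | sb
      · rw [ha, hb] at hab
        simp only [ix, Sum.elim_inl, Sum.elim_inr] at hab
        have := xb.2.2
        omega
      · apply hne
        apply hinj
        rw [ha, hb, Subsingleton.elim sa sb]
  -- the tight component of the root lies in the first clique
  have hTK : ∀ φ ∈ XB, ∀ u, TK F r M 1 φ u → ∃ j, φ u = .inl (false, j) := by
    rintro φ ⟨hinj, hhom, hr⟩ u hu
    induction hu with
    | refl => exact ⟨i, hr⟩
    | @tail a b _ hab ih =>
      obtain ⟨j, hj⟩ := ih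
      have hadj := hhom a b hab.1
      have hix := hab.2
      rw [hj] at hadj hix
      rcases hb : φ b with xb | sb
      · rw [hb] at hadj hix
        rw [host_inl_inl] at hadj
        simp only [ix, Sum.elim_inl] at hix
        rcases hadj.2 with h | h
        · exact ⟨xb.2, by congr 1; exact Prod.ext h.symm rfl⟩
        · simp only at h; omega
      · rw [hb] at hix
        simp only [ix, Sum.elim_inl, Sum.elim_inr] at hix
        omega
  -- the map
  set Kp : (W → (Bool × Fin M) ⊕ Fin 1) → W → Prop := fun φ w =>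
    (∀ w', ix M 1 (φ w') ≠ M) ∨ TK F r M 1 φ w with hKp
  set Θ : (W → (Bool × Fin M) ⊕ Fin 1) → (W → (Bool × Fin M) ⊕ Fin 1) := fun φ w =>
    if Kp φ w then fl M 1 (φ w) else φ w with hΘ
  have hixM : ∀ x : (Bool × Fin M) ⊕ Fin 1, ix M 1 x = M ↔ x = .inr 0 := by
    intro x
    rcases x with x | s
    · simp only [ix, Sum.elim_inl, reduceCtorEq, iff_false]
      have := x.2.2
      omega
    · simp only [ix, Sum.elim_inr, true_iff]
      rw [Subsingleton.elim s 0]
  have hixΘ : ∀ φ w, ix M 1 (Θ φ w) = ix M 1 (φ w) := by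
    intro φ w
    simp only [hΘ]
    split_ifs
    · exact ix_fl _ _ _
    · rfl
  have hKpΘ : ∀ φ ψ, (∀ w, ix M 1 (φ w) = ix M 1 (ψ w)) → ∀ w, Kp φ w ↔ Kp ψ w := by
    intro φ ψ h w
    simp only [hKp, h, TK_congr F r M 1 h]
  have hKr : ∀ φ, Kp φ r := fun φ => Or.inr Relation.ReflTransGen.refl
  have hinjΘ : ∀ φ ∈ XB \ Bad, Injective (Θ φ) := by
    intro φ hφ a b hab
    have hix : ix M 1 (φ a) = ix M 1 (φ b) := by
      rw [← hixΘ φ a, ← hixΘ φ b, hab]
    by_cases hs : ∃ w, φ w = .inr 0
    · obtain ⟨w, hw⟩ := hs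
      exact hgood φ hφ w hw a b hix
    · push Not at hs
      have hall : ∀ w, Kp φ w := by
        intro w
        left
        intro w' hw'
        exact hs w' ((hixM _).mp hw')
      simp only [hΘ, hall a, hall b, if_true] at hab
      exact hφ.1.1 (fl_injective _ _ hab)
  have hΘmem : ∀ φ ∈ XB \ Bad, Θ φ ∈ XA := by
    intro φ hφ
    obtain ⟨hinj, hhom, hr⟩ := hφ.1
    refine ⟨hinjΘ φ hφ, ?_, ?_⟩
    · by_cases hs : ∃ w, φ w = .inr 0
      · obtain ⟨w0, hw0⟩ := hs
        have hKiff : ∀ w, Kp φ w ↔ TK F r M 1 φ w := by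
          intro w
          simp only [hKp]
          constructor
          · rintro (h | h)
            · exact absurd ((hixM _).mpr hw0) (h w0)
            · exact h
          · intro h; exact Or.inr h
        -- auxiliary: one endpoint in the component, the other not
        have haux : ∀ a b, F.Adj a b → TK F r M 1 φ a → ¬ TK F r M 1 φ b →
            (host M 1 c).Adj (fl M 1 (φ a)) (φ b) := by
          intro a b hab ha hb
          obtain ⟨j, hj⟩ := hTK φ hφ.1 a ha
          have hadj := hhom a b hab
          have hnt : ¬ Tight F M 1 φ a b := fun h => hb (Relation.ReflTransGen.tail ha h)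
          have hsum : M ≤ ix M 1 (φ a) + ix M 1 (φ b) := by
            by_contra hcon
            exact hnt ⟨hab, by omega⟩
          rcases hb' : φ b with xb | sb
          · rw [hj]
            simp only [fl, Sum.map_inl, Bool.not_false]
            rw [host_inl_inl]
            rw [hj, hb'] at hsum
            simp only [ix, Sum.elim_inl] at hsum
            refine ⟨?_, Or.inr hsum⟩
            intro heq
            have hixeq : ix M 1 (φ a) = ix M 1 (φ b) := by
              rw [hj, hb', ← heq]
              rfl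
            have := hgood φ hφ w0 hw0 a b hixeq
            exact hab.ne this
          · rw [hj, hb'] at hadj
            rw [host_inl_inr] at hadj
            exact absurd hadj.1 (by simp)
        intro a b hab
        have hadj := hhom a b hab
        simp only [hΘ, hKiff]
        by_cases ha : TK F r M 1 φ a <;> by_cases hb : TK F r M 1 φ b
        · simp only [ha, hb, if_true]
          obtain ⟨j, hj⟩ := hTK φ hφ.1 a ha
          obtain ⟨j', hj'⟩ := hTK φ hφ.1 b hb
          rw [hj, hj'] at hadj ⊢
          simp only [fl, Sum.map_inl, Bool.not_false]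
          rw [host_inl_inl] at hadj ⊢
          refine ⟨?_, Or.inl rfl⟩
          intro h
          apply hadj.1
          simp only [Prod.mk.injEq, true_and] at h ⊢
          exact h
        · simp only [ha, hb, if_true, if_false]
          exact haux a b hab ha hb
        · simp only [ha, hb, if_true, if_false]
          exact (haux b a hab.symm hb ha).symm
        · simp only [ha, hb, if_false]
          exact hadj
      · push Not at hs
        have hall : ∀ w, Kp φ w := by
          intro w
          left
          intro w' hw'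
          exact hs w' ((hixM _).mp hw')
        intro a b hab
        have hadj := hhom a b hab
        simp only [hΘ, hall a, hall b, if_true]
        rcases ha : φ a with xa | sa
        · rcases hb : φ b with xb | sb
          · rw [ha, hb, host_inl_inl] at hadj
            simp only [fl, Sum.map_inl]
            rw [host_inl_inl]
            refine ⟨?_, ?_⟩
            · intro h
              apply hadj.1
              simp only [Prod.mk.injEq, Bool.not_eq_eq_eq_not, Bool.not_not] at h
              exact Prod.ext h.1 h.2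
            · rcases hadj.2 with h | h
              · left; simp [h]
              · right; exact h
          · exact absurd (by rw [hb, Subsingleton.elim sb 0]) (hs b)
        · exact absurd (by rw [ha, Subsingleton.elim sa 0]) (hs a)
    · simp only [hΘ, hKr φ, if_true, hr]
      rfl
  have hΘinjOn : Set.InjOn Θ (XB \ Bad) := by
    intro φ hφ ψ hψ heq
    have hix : ∀ w, ix M 1 (φ w) = ix M 1 (ψ w) := by
      intro w
      rw [← hixΘ φ w, ← hixΘ ψ w, heq]
    funext w
    have hw := congrFun heq w
    simp only [hΘ] at hw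
    by_cases hk : Kp φ w
    · have hk' := (hKpΘ φ ψ hix w).mp hk
      simp only [hk, hk', if_true] at hw
      exact fl_injective _ _ hw
    · have hk' : ¬ Kp ψ w := fun h => hk ((hKpΘ φ ψ hix w).mpr h)
      simp only [hk, hk', if_false] at hw
      exact hw
  have hdisj : Disjoint (Θ '' (XB \ Bad)) (Zset F r M c i) := by
    rw [Set.disjoint_left]
    rintro ψ ⟨φ, hφ, rfl⟩ ⟨_, u, w, hu, huw, hw⟩
    rw [TK_congr F r M 1 (hixΘ φ)] at hu
    obtain ⟨j, hj⟩ := hTK φ hφ.1 u hu
    have hφw : φ w = .inr 0 := by
      rw [← hixM, ← hixΘ φ w, hw]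
      rfl
    have hadj := hφ.1.2.1 u w huw
    rw [hj, hφw, host_inl_inr] at hadj
    exact absurd hadj.1 (by simp)
  have hunion : (XB \ Bad).ncard + (Zset F r M c i).ncard ≤ XA.ncard := by
    rw [← Set.ncard_image_of_injOn hΘinjOn, ← Set.ncard_union_eq hdisj]
    refine Set.ncard_le_ncard (Set.union_subset ?_ ?_) (Set.toFinite _)
    · rintro ψ ⟨φ, hφ, rfl⟩
      exact hΘmem φ hφ
    · intro ψ hψ; exact hψ.1
  have hsplit : XB.ncard ≤ (XB \ Bad).ncard + Bad.ncard := by
    calc XB.ncard ≤ ((XB \ Bad) ∪ Bad).ncard := by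
          refine Set.ncard_le_ncard ?_ (Set.toFinite _)
          intro x hx
          by_cases h : x ∈ Bad
          · right; exact h
          · left; exact ⟨hx, h⟩
      _ ≤ _ := Set.ncard_union_le _ _
  omega

/-- Lower bound for `Zset` when the root vertex itself is adjacent to the extra vertex. -/
lemma Zset_lb1 [Fintype W] (F : SimpleGraph W) (r c0 : W) (h0 : F.Adj r c0) (M : ℕ)
    (c : Fin M → Option (Fin 1)) (i : Fin M) (hi : c i = some 0) :
    ((univ.filter (fun t => c t = some 0)).card - 1).descFactorial (Fintype.card W - 2)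
      ≤ (Zset F r M c i).ncard := by
  classical
  set K : Finset ((Bool × Fin M) ⊕ Fin 1) :=
    insert (.inr 0) ((univ.filter (fun t => c t = some 0)).image (fun t => .inl (true, t))) with hK
  have hKcard : K.card = (univ.filter (fun t => c t = some 0)).card + 1 := by
    rw [hK, card_insert_of_notMem (by simp), card_image_of_injective]
    intro a b hab
    simpa using hab
  have hclq : ∀ x ∈ K, ∀ y ∈ K, x ≠ y → (host M 1 c).Adj x y := by
    intro x hx y hy hxy
    rw [hK, mem_insert, mem_image] at hx hy
    rcases hx with rfl | ⟨a, ha, rfl⟩ <;> rcases hy with rfl | ⟨b, hb, rfl⟩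
    · exact absurd rfl hxy
    · simp only [mem_filter, mem_univ, true_and] at hb
      exact ⟨rfl, hb⟩
    · simp only [mem_filter, mem_univ, true_and] at ha
      exact ⟨rfl, ha⟩
    · rw [host_inl_inl]
      exact ⟨fun h => hxy (by rw [h]), Or.inl rfl⟩
  have h := clique_lb2 F r c0 h0.ne' (host M 1 c) K hclq (.inl (true, i)) (.inr 0)
    (by rw [hK, mem_insert, mem_image]; right; exact ⟨i, by simp [hi], rfl⟩)
    (by rw [hK]; exact mem_insert_self _ _) (by simp)
  rw [hKcard] at h
  have h2 : (univ.filter (fun t => c t = some 0)).card + 1 - 2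
      = (univ.filter (fun t => c t = some 0)).card - 1 := by omega
  rw [h2] at h
  refine le_trans h (Set.ncard_le_ncard ?_ (Set.toFinite _))
  rintro ψ ⟨hψ, hψ0⟩
  exact ⟨hψ, r, c0, Relation.ReflTransGen.refl, h0, hψ0⟩

/-- Lower bound for `Zset` when the root vertex is not adjacent to the extra vertex. -/
lemma Zset_lb2 [Fintype W] (F : SimpleGraph W) (r c0 c1 : W) (h0 : F.Adj r c0)
    (h1 : F.Adj c0 c1) (hc1 : c1 ≠ r) (hn : ¬ F.Adj r c1) (M : ℕ)
    (c : Fin M → Option (Fin 1)) (i : Fin M) (hi : c i = none) :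
    (univ.filter (fun t : Fin M => c t = some 0 ∧ (i : ℕ) + t < M)).card *
      ((univ.filter (fun t => c t = some 0)).card - 1).descFactorial (Fintype.card W - 3)
      ≤ (Zset F r M c i).ncard := by
  classical
  have hc01 : c0 ≠ c1 := h1.ne
  have hrc0 : r ≠ c0 := h0.ne
  have h3card : ({r, c0, c1} : Finset W).card = 3 := by
    rw [card_insert_of_notMem, card_pair hc01]
    simp [hrc0, hc1.symm]
  have hcardimg : (univ.filter (fun t : Fin M => c t = some 0 ∧ (i : ℕ) + t < M)).card
      = ((univ.filter (fun t : Fin M => c t = some 0 ∧ (i : ℕ) + t < M)).image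
        (fun t => (.inl (true, t) : (Bool × Fin M) ⊕ Fin 1))).card := by
    rw [card_image_of_injective]
    intro a b hab
    simpa using hab
  rw [hcardimg]
  apply mul_le_ncard_of_fibers (Zset F r M c i) (Set.toFinite _) (fun ψ => ψ c0)
  intro x hx
  rw [mem_image] at hx
  obtain ⟨t, ht, rfl⟩ := hx
  simp only [mem_filter, mem_univ, true_and] at ht
  obtain ⟨hct, hit⟩ := ht
  set A0 : Finset (Fin M) := univ.filter (fun t => c t = some 0) with hA0
  set K : Finset ((Bool × Fin M) ⊕ Fin 1) := (A0.erase t).image (fun t => .inl (true, t)) with hK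
  have htA0 : t ∈ A0 := by simp [hA0, hct]
  have hKcard : K.card = A0.card - 1 := by
    rw [hK, card_image_of_injective, card_erase_of_mem htA0]
    intro a b hab
    simpa using hab
  rw [← hKcard, ← h3card]
  have hti : t ≠ i := by
    rintro rfl
    rw [hi] at hct
    simp at hct
  have h := descFactorial_le_ncard ({r, c0, c1} : Finset W)
    (fun w => if w = r then (.inl (true, i) : (Bool × Fin M) ⊕ Fin 1)
      else if w = c0 then .inl (true, t) else .inr 0) K
    {z ∈ Zset F r M c i | z c0 = .inl (true, t)} ?_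
  · exact h
  · intro φ e1 e2 e3
    have hr : φ r = .inl (true, i) := by
      have := e1 r (by simp)
      simpa using this
    have hφ0 : φ c0 = .inl (true, t) := by
      have := e1 c0 (by simp)
      simpa [hrc0.symm] using this
    have hφ1 : φ c1 = .inr 0 := by
      have := e1 c1 (by simp)
      simpa [hc1, hc01.symm] using this
    have hval : ∀ w, w ∉ ({r, c0, c1} : Finset W) →
        ∃ l, φ w = .inl (true, l) ∧ c l = some 0 ∧ l ≠ t := by
      intro w hw
      have := e2 w hw
      rw [hK, mem_image] at this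
      obtain ⟨l, hl, hl'⟩ := this
      rw [mem_erase, hA0, mem_filter] at hl
      exact ⟨l, hl'.symm, hl.2.2, hl.1⟩
    -- general description of the values
    have hdesc : ∀ w, (w = r ∧ φ w = .inl (true, i)) ∨ (w = c1 ∧ φ w = .inr 0) ∨
        (w ≠ r ∧ w ≠ c1 ∧ ∃ l, φ w = .inl (true, l) ∧ c l = some 0) := by
      intro w
      by_cases hwr : w = r
      · left; exact ⟨hwr, by rw [hwr, hr]⟩
      · by_cases hw1 : w = c1
        · right; left; exact ⟨hw1, by rw [hw1, hφ1]⟩
        · right; right
          refine ⟨hwr, hw1, ?_⟩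
          by_cases hw0 : w = c0
          · exact ⟨t, by rw [hw0, hφ0], hct⟩
          · obtain ⟨l, hl, hl', _⟩ := hval w (by simp [hwr, hw0, hw1])
            exact ⟨l, hl, hl'⟩
    have hinj : Injective φ := by
      intro a b hab
      by_cases ha : a ∈ ({r, c0, c1} : Finset W) <;> by_cases hb : b ∈ ({r, c0, c1} : Finset W)
      · simp only [mem_insert, mem_singleton] at ha hb
        rcases ha with rfl | rfl | rfl <;> rcases hb with rfl | rfl | rfl
        · rfl
        · rw [hr, hφ0] at hab
          simp only [Sum.inl.injEq, Prod.mk.injEq, true_and] at hab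
          exact absurd hab.symm hti
        · rw [hr, hφ1] at hab; simp at hab
        · rw [hr, hφ0] at hab
          simp only [Sum.inl.injEq, Prod.mk.injEq, true_and] at hab
          exact absurd hab hti
        · rfl
        · rw [hφ0, hφ1] at hab; simp at hab
        · rw [hr, hφ1] at hab; simp at hab
        · rw [hφ0, hφ1] at hab; simp at hab
        · rfl
      · obtain ⟨l, hl, hl', hlt⟩ := hval b hb
        simp only [mem_insert, mem_singleton] at ha
        rw [hl] at hab
        rcases ha with rfl | rfl | rfl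
        · rw [hr] at hab
          simp only [Sum.inl.injEq, Prod.mk.injEq, true_and] at hab
          rw [← hab, hi] at hl'; simp at hl'
        · rw [hφ0] at hab
          simp only [Sum.inl.injEq, Prod.mk.injEq, true_and] at hab
          exact absurd hab.symm hlt
        · rw [hφ1] at hab; simp at hab
      · obtain ⟨l, hl, hl', hlt⟩ := hval a ha
        simp only [mem_insert, mem_singleton] at hb
        rw [hl] at hab
        rcases hb with rfl | rfl | rfl
        · rw [hr] at hab
          simp only [Sum.inl.injEq, Prod.mk.injEq, true_and] at hab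
          rw [hab, hi] at hl'; simp at hl'
        · rw [hφ0] at hab
          simp only [Sum.inl.injEq, Prod.mk.injEq, true_and] at hab
          exact absurd hab hlt
        · rw [hφ1] at hab; simp at hab
      · exact e3 a b ha hb hab
    have hhom : ∀ a b, F.Adj a b → (host M 1 c).Adj (φ a) (φ b) := by
      intro a b hab
      have hne : φ a ≠ φ b := fun h => hab.ne (hinj h)
      rcases hdesc a with ⟨ha, ha'⟩ | ⟨ha, ha'⟩ | ⟨ha1, ha2, la, ha', hla⟩ <;>
        rcases hdesc b with ⟨hb, hb'⟩ | ⟨hb, hb'⟩ | ⟨hb1, hb2, lb, hb', hlb⟩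
      · rw [ha, hb] at hab; exact absurd rfl hab.ne
      · rw [ha, hb] at hab; exact absurd hab hn
      · rw [ha', hb'] at hne ⊢
        rw [host_inl_inl]
        exact ⟨fun h => hne (by rw [h]), Or.inl rfl⟩
      · rw [ha, hb] at hab; exact absurd hab.symm hn
      · rw [ha, hb] at hab; exact absurd rfl hab.ne
      · rw [ha', hb', host_inr_inl]; exact ⟨rfl, hlb⟩
      · rw [ha', hb'] at hne ⊢
        rw [host_inl_inl]
        exact ⟨fun h => hne (by rw [h]), Or.inl rfl⟩
      · rw [ha', hb', host_inl_inr]; exact ⟨rfl, hla⟩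
      · rw [ha', hb'] at hne ⊢
        rw [host_inl_inl]
        exact ⟨fun h => hne (by rw [h]), Or.inl rfl⟩
    refine ⟨⟨⟨hinj, hhom, hr⟩, c0, c1, ?_, h1, hφ1⟩, hφ0⟩
    apply Relation.ReflTransGen.single
    refine ⟨h0, ?_⟩
    rw [hr, hφ0]
    simpa [ix] using hit

end Pool.Agent.Lib.MP_c25556_co
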