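import Pool.Agent.Lib.MP_c25556_co.Counting

open Finset Function SimpleGraph

namespace Pool.Agent.Lib.MP_c25556_co

variable {W : Type*}

/-- Base graph: two cliques joined by a half graph. -/
def base (M : ℕ) : SimpleGraph (Bool × Fin M) where
  Adj x y := x ≠ y ∧ (x.1 = y.1 ∨ M ≤ (x.2 : ℕ) + y.2)
  symm := ⟨fun x y h => ⟨h.1.symm, by
    rcases h.2 with h | h
    · exact Or.inl h.symm
    · right; omega⟩⟩
  loopless := ⟨fun x h => h.1 rfl⟩

lemma base_adj {M : ℕ} {x y : Bool × Fin M} :
    (base M).Adj x y ↔ x ≠ y ∧ (x.1 = y.1 ∨ M ≤ (x.2 : ℕ) + y.2) := Iff.rfl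

/-- Adjacency of the host graph. -/
def hostAdj (M q : ℕ) (c : Fin M → Option (Fin q)) :
    (Bool × Fin M) ⊕ Fin q → (Bool × Fin M) ⊕ Fin q → Prop
  | .inl x, .inl y => (base M).Adj x y
  | .inl x, .inr s => x.1 = true ∧ c x.2 = some s
  | .inr s, .inl x => x.1 = true ∧ c x.2 = some s
  | .inr _, .inr _ => False

/-- The host graph: the base graph together with `q` extra vertices, the `s`-th of which is
adjacent to the vertices `(true, i)` with `c i = some s`. -/
def host (M q : ℕ) (c : Fin M → Option (Fin q)) : SimpleGraph ((Bool × Fin M) ⊕ Fin q) where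
  Adj := hostAdj M q c
  symm := ⟨fun x y h => by
    rcases x with x | s <;> rcases y with y | t
    · exact (base M).symm.symm _ _ h
    · exact h
    · exact h
    · exact h⟩
  loopless := ⟨fun x h => by
    rcases x with x | s
    · exact (base M).loopless.irrefl _ h
    · exact h⟩

variable {M q : ℕ} {c : Fin M → Option (Fin q)}

@[simp] lemma host_inl_inl {x y : Bool × Fin M} :
    (host M q c).Adj (.inl x) (.inl y) ↔ x ≠ y ∧ (x.1 = y.1 ∨ M ≤ (x.2 : ℕ) + y.2) := Iff.rfl

@[simp] lemma host_inl_inr {x : Bool × Fin M} {s : Fin q} :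
    (host M q c).Adj (.inl x) (.inr s) ↔ x.1 = true ∧ c x.2 = some s := Iff.rfl

@[simp] lemma host_inr_inl {x : Bool × Fin M} {s : Fin q} :
    (host M q c).Adj (.inr s) (.inl x) ↔ x.1 = true ∧ c x.2 = some s := Iff.rfl

@[simp] lemma host_inr_inr {s t : Fin q} :
    ¬ (host M q c).Adj (.inr s) (.inr t) := fun h => h

/-- The number of rooted copies in the base graph agrees at `(false,i)` and `(true,i)`. -/
lemma base_X_flip [Finite W] (F : SimpleGraph W) (r : W) (i : Fin M) :
    (X F r (base M) (false, i)).ncard = (X F r (base M) (true, i)).ncard := by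
  have hfl : ∀ (b : Bool), (X F r (base M) (b, i)).ncard ≤ (X F r (base M) (!b, i)).ncard := by
    intro b
    apply Set.ncard_le_ncard_of_injOn (fun φ : W → Bool × Fin M => fun w => (!(φ w).1, (φ w).2))
    · rintro φ ⟨h1, h2, h3⟩
      refine ⟨?_, ?_, ?_⟩
      · intro u v huv
        simp only [Prod.mk.injEq, Bool.not_eq_eq_eq_not, Bool.not_not] at huv
        exact h1 (Prod.ext huv.1 huv.2)
      · intro u v huv
        have := h2 u v huv
        rw [base_adj] at this ⊢
        refine ⟨?_, ?_⟩
        · intro h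
          simp only [Prod.mk.injEq, Bool.not_eq_eq_eq_not, Bool.not_not] at h
          exact this.1 (Prod.ext h.1 h.2)
        · rcases this.2 with h | h
          · left; simp [h]
          · right; exact h
      · simp [h3]
    · intro φ _ ψ _ h
      funext w
      have := congrFun h w
      simp only [Prod.mk.injEq, Bool.not_eq_eq_eq_not, Bool.not_not] at this
      exact Prod.ext this.1 this.2
  apply le_antisymm
  · exact hfl false
  · exact hfl true

/-- Copies in the base graph are copies in the host graph. -/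
lemma base_le_host [Finite W] (F : SimpleGraph W) (r : W) (x : Bool × Fin M) :
    (X F r (base M) x).ncard ≤ (X F r (host M q c) (.inl x)).ncard := by
  apply Set.ncard_le_ncard_of_injOn
    (fun φ : W → Bool × Fin M => fun w => (.inl (φ w) : (Bool × Fin M) ⊕ Fin q))
  · rintro φ ⟨h1, h2, h3⟩
    refine ⟨?_, ?_, ?_⟩
    · intro u v huv
      exact h1 (Sum.inl_injective huv)
    · intro u v huv
      exact h2 u v huv
    · simp [h3]
  · intro φ _ ψ _ h
    funext w
    exact Sum.inl_injective (congrFun h w)

lemma card_V : Fintype.card ((Bool × Fin M) ⊕ Fin q) = 2 * M + q := by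
  simp

end Pool.Agent.Lib.MP_c25556_co
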