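import Mathlib

namespace Pool.Agent.Lib.MP_c25556_co

/-- The ratio between the size of the cliques and the size of the small pieces. -/
def DD (k : ℕ) : ℕ := 4 * k ^ 2 * 8 ^ k

lemma DD_pos {k : ℕ} (hk : 3 ≤ k) : 1 ≤ DD k := by
  unfold DD
  have : 0 < 4 * k ^ 2 * 8 ^ k := by positivity
  omega

lemma numeric1 (k L M n : ℕ) (hk : 3 ≤ k) (hM : 2 * k ≤ M) (hn : n ≤ 4 * M) (hL : 1 ≤ L)
    (hD : DD k * L ≤ M) :
    k ^ 2 * (2 * L + 2) * n ^ (k - 3) < (M - 2).descFactorial (k - 2) := by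
  obtain ⟨j, rfl⟩ : ∃ j, k = j + 3 := ⟨k - 3, by omega⟩
  have e1 : j + 3 - 3 = j := by omega
  have e2 : j + 3 - 2 = j + 1 := by omega
  rw [e1, e2]
  have h1 := Nat.pow_sub_le_descFactorial (M - 2) (j + 1)
  have e3 : M - 2 + 1 - (j + 1) = M - (j + 2) := by omega
  rw [e3] at h1
  refine lt_of_lt_of_le ?_ h1
  have hMpos : 0 < M := by omega
  -- multiply by 2^(j+1)
  have h2 : M ^ (j + 1) ≤ 2 ^ (j + 1) * (M - (j + 2)) ^ (j + 1) := by
    rw [← mul_pow]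
    apply Nat.pow_le_pow_left
    omega
  have h3 : n ^ j ≤ 4 ^ j * M ^ j := by
    rw [← mul_pow]
    exact Nat.pow_le_pow_left hn j
  have h4 : 2 ^ (j + 1) * ((j + 3) ^ 2 * (2 * L + 2) * (4 ^ j * M ^ j)) < M ^ (j + 1) := by
    have h5 : 2 ^ (j + 1) * ((j + 3) ^ 2 * (2 * L + 2) * 4 ^ j) < M := by
      refine lt_of_lt_of_le ?_ hD
      unfold DD
      have h6 : (8 : ℕ) ^ (j + 3) = 2 ^ (j + 1) * 4 ^ j * 256 := by
        have : (8 : ℕ) = 2 * 4 := by norm_num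
        rw [this, mul_pow]
        ring
      rw [h6]
      have h7 : 2 * L + 2 ≤ 4 * L := by omega
      have h8 : 0 < (j + 3) ^ 2 * 2 ^ (j + 1) * 4 ^ j * L := by positivity
      calc 2 ^ (j + 1) * ((j + 3) ^ 2 * (2 * L + 2) * 4 ^ j)
          ≤ 2 ^ (j + 1) * ((j + 3) ^ 2 * (4 * L) * 4 ^ j) := by gcongr
        _ = 4 * ((j + 3) ^ 2 * 2 ^ (j + 1) * 4 ^ j * L) := by ring
        _ < 1024 * ((j + 3) ^ 2 * 2 ^ (j + 1) * 4 ^ j * L) := by omega
        _ = 4 * (j + 3) ^ 2 * (2 ^ (j + 1) * 4 ^ j * 256) * L := by ring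
    calc 2 ^ (j + 1) * ((j + 3) ^ 2 * (2 * L + 2) * (4 ^ j * M ^ j))
        = (2 ^ (j + 1) * ((j + 3) ^ 2 * (2 * L + 2) * 4 ^ j)) * M ^ j := by ring
      _ < M * M ^ j := by
          apply Nat.mul_lt_mul_of_pos_right h5
          positivity
      _ = M ^ (j + 1) := by ring
  have h9 : 2 ^ (j + 1) * ((j + 3) ^ 2 * (2 * L + 2) * n ^ j)
      < 2 ^ (j + 1) * (M - (j + 2)) ^ (j + 1) := by
    calc 2 ^ (j + 1) * ((j + 3) ^ 2 * (2 * L + 2) * n ^ j)
        ≤ 2 ^ (j + 1) * ((j + 3) ^ 2 * (2 * L + 2) * (4 ^ j * M ^ j)) := by gcongr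
      _ < M ^ (j + 1) := h4
      _ ≤ _ := h2
  exact Nat.lt_of_mul_lt_mul_left h9

lemma numeric3 (k L M n : ℕ) (hk : 3 ≤ k) (hM : 2 * k ≤ M) (hn : n ≤ 4 * M) (hL : 1 ≤ L)
    (hD : DD k * L ≤ M) :
    2 * L * n ^ (k - 2) < (M - 1).descFactorial (k - 1) := by
  obtain ⟨j, rfl⟩ : ∃ j, k = j + 3 := ⟨k - 3, by omega⟩
  have e1 : j + 3 - 2 = j + 1 := by omega
  have e2 : j + 3 - 1 = j + 2 := by omega
  rw [e1, e2]
  have h1 := Nat.pow_sub_le_descFactorial (M - 1) (j + 2)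
  have e3 : M - 1 + 1 - (j + 2) = M - (j + 2) := by omega
  rw [e3] at h1
  refine lt_of_lt_of_le ?_ h1
  have hMpos : 0 < M := by omega
  have h2 : M ^ (j + 2) ≤ 2 ^ (j + 2) * (M - (j + 2)) ^ (j + 2) := by
    rw [← mul_pow]
    apply Nat.pow_le_pow_left
    omega
  have h3 : n ^ (j + 1) ≤ 4 ^ (j + 1) * M ^ (j + 1) := by
    rw [← mul_pow]
    exact Nat.pow_le_pow_left hn _
  have h4 : 2 ^ (j + 2) * (2 * L * (4 ^ (j + 1) * M ^ (j + 1))) < M ^ (j + 2) := by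
    have h5 : 2 ^ (j + 2) * (2 * L * 4 ^ (j + 1)) < M := by
      refine lt_of_lt_of_le ?_ hD
      unfold DD
      have h6 : (8 : ℕ) ^ (j + 3) = 2 ^ (j + 2) * 4 ^ (j + 1) * 32 := by
        have : (8 : ℕ) = 2 * 4 := by norm_num
        rw [this, mul_pow]
        ring
      rw [h6]
      have h8 : 0 < 2 ^ (j + 2) * 4 ^ (j + 1) * L := by positivity
      have h9 : 1 ≤ (j + 3) ^ 2 := Nat.one_le_pow _ _ (by omega)
      calc 2 ^ (j + 2) * (2 * L * 4 ^ (j + 1))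
          = 2 * (2 ^ (j + 2) * 4 ^ (j + 1) * L) := by ring
        _ < 128 * (2 ^ (j + 2) * 4 ^ (j + 1) * L) := by omega
        _ = 4 * 1 * (2 ^ (j + 2) * 4 ^ (j + 1) * 32) * L := by ring
        _ ≤ 4 * (j + 3) ^ 2 * (2 ^ (j + 2) * 4 ^ (j + 1) * 32) * L := by gcongr
    calc 2 ^ (j + 2) * (2 * L * (4 ^ (j + 1) * M ^ (j + 1)))
        = (2 ^ (j + 2) * (2 * L * 4 ^ (j + 1))) * M ^ (j + 1) := by ring
      _ < M * M ^ (j + 1) := by
          apply Nat.mul_lt_mul_of_pos_right h5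
          positivity
      _ = M ^ (j + 2) := by ring
  have h9 : 2 ^ (j + 2) * (2 * L * n ^ (j + 1)) < 2 ^ (j + 2) * (M - (j + 2)) ^ (j + 2) := by
    calc 2 ^ (j + 2) * (2 * L * n ^ (j + 1))
        ≤ 2 ^ (j + 2) * (2 * L * (4 ^ (j + 1) * M ^ (j + 1))) := by gcongr
      _ < M ^ (j + 2) := h4
      _ ≤ _ := h2
  exact Nat.lt_of_mul_lt_mul_left h9

lemma numeric2 (k L n D : ℕ) (hk : 3 ≤ k) (hn : n ≤ D * L) (hL : k ≤ L)
    (hL2 : k ^ 3 * D ^ (k - 3) < L) :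
    k ^ 3 * n ^ (k - 3) < L * (2 * L - 1).descFactorial (k - 3) ∧
    k ^ 3 * n ^ (k - 3) < (2 * L - 1).descFactorial (k - 2) := by
  obtain ⟨j, rfl⟩ : ∃ j, k = j + 3 := ⟨k - 3, by omega⟩
  have e1 : j + 3 - 3 = j := by omega
  have e2 : j + 3 - 2 = j + 1 := by omega
  rw [e1] at hL2
  rw [e1, e2]
  have hLpos : 0 < L := by omega
  have hkey : (j + 3) ^ 3 * n ^ j < L * L ^ j := by
    calc (j + 3) ^ 3 * n ^ j ≤ (j + 3) ^ 3 * (D * L) ^ j := by gcongr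
      _ = ((j + 3) ^ 3 * D ^ j) * L ^ j := by rw [mul_pow]; ring
      _ < L * L ^ j := by
          apply Nat.mul_lt_mul_of_pos_right hL2
          positivity
  constructor
  · refine lt_of_lt_of_le hkey ?_
    apply Nat.mul_le_mul_left
    refine le_trans ?_ (Nat.pow_sub_le_descFactorial _ _)
    apply Nat.pow_le_pow_left
    omega
  · refine lt_of_lt_of_le hkey ?_
    refine le_trans ?_ (Nat.pow_sub_le_descFactorial _ _)
    rw [← pow_succ']
    apply Nat.pow_le_pow_left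
    omega

lemma descFactorial_strict {a b m : ℕ} (hm : 1 ≤ m) (ha : m ≤ a) (hab : a < b) :
    a.descFactorial m < b.descFactorial m := by
  have h1 : a.descFactorial m < (a + 1).descFactorial m := by
    have h := Nat.succ_descFactorial a m
    have hpos : 0 < a.descFactorial m := Nat.descFactorial_pos.mpr ha
    by_contra hcon
    push Not at hcon
    have h2 : (a + 1 - m) * (a + 1).descFactorial m ≤ (a + 1 - m) * a.descFactorial m :=
      Nat.mul_le_mul_left _ hcon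
    rw [h] at h2
    have h3 : a + 1 ≤ a + 1 - m := Nat.le_of_mul_le_mul_right h2 hpos
    omega
  exact lt_of_lt_of_le h1 (Nat.descFactorial_le m hab)

end Pool.Agent.Lib.MP_c25556_co
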