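import Pool.Agent.Lib.MP_c25556_co.Host
import Pool.Agent.Lib.MP_c25556_co.Clique

open Finset Function SimpleGraph

namespace Pool.Agent.Lib.MP_c25556_co

variable {W : Type*} {M q : ℕ} {c : Fin M → Option (Fin q)}

/-- The parametrisation of a large clique of the base graph. -/
def cl (M i : ℕ) (hi : i + 1 < M) (l : Fin M) : Bool × Fin M :=
  if h : i + 1 ≤ (l : ℕ) then (true, l) else (false, ⟨(l : ℕ) + (M - 1 - i), by omega⟩)

lemma cl_injective (M i : ℕ) (hi : i + 1 < M) : Injective (cl M i hi) := by
  intro a b hab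
  unfold cl at hab
  split_ifs at hab with h1 h2 h2
  · simpa using hab
  · simp at hab
  · simp at hab
  · simp only [Prod.mk.injEq, Fin.mk.injEq, true_and] at hab
    exact Fin.ext (by omega)

lemma cl_adj (M i : ℕ) (hi : i + 1 < M) (a b : Fin M) (hab : a ≠ b) :
    (base M).Adj (cl M i hi a) (cl M i hi b) := by
  refine ⟨fun h => hab (cl_injective M i hi h), ?_⟩
  unfold cl
  split_ifs with h1 h2 h2
  · left; rfl
  · right; simp only; omega
  · right; simp only; omega
  · left; rfl

/-- Replacing the copies rooted at `(true,i)` in the host graph by copies rooted at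
`(true,i+1)` in the base graph. -/
lemma step [Fintype W] (F : SimpleGraph W) (r c0 c1 : W) (h0 : F.Adj r c0)
    (h1 : F.Adj c0 c1) (hc1 : c1 ≠ r) (hF : ∀ w, ∃ w', F.Adj w w')
    (i : ℕ) (hi : i + 1 < M) (s : Fin q) (α : ℕ)
    (hα : (univ.filter (fun t => c t = some s)).card ≤ α)
    (hH : ∀ φ ∈ X F r (host M q c) (.inl (true, ⟨i, by omega⟩)), ∀ w s',
      φ w = .inr s' → s' = s) :
    (X F r (host M q c) (.inl (true, ⟨i, by omega⟩))).ncard
        + (M - 2).descFactorial (Fintype.card W - 2)
      ≤ (X F r (base M) (true, ⟨i + 1, hi⟩)).ncard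
        + Fintype.card W ^ 2 * (α + 2) * (2 * M + q) ^ (Fintype.card W - 3) := by
  classical
  set u : Bool × Fin M := (true, ⟨i, by omega⟩) with hu
  set v : Bool × Fin M := (true, ⟨i + 1, hi⟩) with hv
  set y : Bool × Fin M := (false, ⟨M - 1 - i, by omega⟩) with hy
  have huv : u ≠ v := by simp [hu, hv]
  have huy : u ≠ y := by simp [hu, hy]
  have hvy : v ≠ y := by simp [hv, hy]
  -- the bad set
  set P : Finset (((Bool × Fin M) ⊕ Fin q) × ((Bool × Fin M) ⊕ Fin q)) :=
    {(.inr s, .inl y), (.inl v, .inl y)} ∪
      (univ.filter (fun t => c t = some s ∧ (true, t) ≠ u)).image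
        (fun t => (.inr s, .inl (true, t))) with hPdef
  have hPcard : P.card ≤ α + 2 := by
    calc P.card ≤ _ + _ := card_union_le _ _
      _ ≤ 2 + α := by
        apply Nat.add_le_add
        · exact card_le_two
        · refine le_trans card_image_le (le_trans (card_le_card ?_) hα)
          intro t ht
          simp only [mem_filter, mem_univ, true_and] at ht ⊢
          exact ht.1
      _ = α + 2 := by ring
  have hP : ∀ p ∈ P, p.1 ≠ p.2 ∧ p.1 ≠ .inl u ∧ p.2 ≠ .inl u := by
    intro p hp
    rw [hPdef, mem_union] at hp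
    rcases hp with hp | hp
    · simp only [mem_insert, mem_singleton] at hp
      rcases hp with rfl | rfl
      · simp [huy.symm]
      · simp [hvy, huv.symm, huy.symm]
    · simp only [mem_image, mem_filter, mem_univ, true_and] at hp
      obtain ⟨t, ht, rfl⟩ := hp
      simp [ht.2]
  set XU := X F r (host M q c) (.inl u) with hXU
  set Bad : Set (W → (Bool × Fin M) ⊕ Fin q) :=
    {φ | φ r = .inl u ∧ ∃ w w', (φ w, φ w') ∈ P} with hBad
  have hBadcard : Bad.ncard ≤
      Fintype.card W ^ 2 * (α + 2) * (2 * M + q) ^ (Fintype.card W - 3) := by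
    have := pair_ub r (.inl u) P hP
    rw [card_V] at this
    refine le_trans this ?_
    gcongr
  -- the map
  set Θ : (W → (Bool × Fin M) ⊕ Fin q) → (W → Bool × Fin M) :=
    fun φ w => Sum.elim (Equiv.swap u v) (fun _ => y) (φ w) with hΘ
  have hswy : Equiv.swap u v y = y := Equiv.swap_apply_of_ne_of_ne huy.symm hvy.symm
  -- the two kinds of good maps
  have hgood2 : ∀ φ ∈ XU \ Bad, ∀ w s', φ w = .inr s' →
      (∀ w', φ w' ≠ .inl y) ∧ ∀ w', F.Adj w w' → w' = r := by
    rintro φ ⟨hφ, hnb⟩ w s' hw
    have hs : s' = s := hH φ hφ w s' hw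
    subst hs
    obtain ⟨hinj, hhom, hr⟩ := hφ
    have hnb' : ∀ w w', (φ w, φ w') ∉ P := by
      intro w w' h
      exact hnb ⟨hr, w, w', h⟩
    constructor
    · intro w' hw'
      apply hnb' w w'
      rw [hw, hw', hPdef]
      simp
    · intro w' hww'
      by_contra hne
      have hadj := hhom w w' hww'
      rw [hw] at hadj
      rcases hφw' : φ w' with x | t
      · rw [hφw'] at hadj
        rw [host_inr_inl] at hadj
        apply hnb' w w'
        rw [hw, hφw', hPdef, mem_union]
        right
        rw [mem_image]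
        refine ⟨x.2, ?_, ?_⟩
        · simp only [mem_filter, mem_univ, true_and]
          refine ⟨hadj.2, ?_⟩
          intro hxu
          apply hne
          apply hinj
          rw [hφw', hr]
          congr 1
          rw [← hxu]
          exact Prod.ext hadj.1 rfl
        · congr 2
          exact Prod.ext hadj.1.symm rfl
      · rw [hφw'] at hadj
        exact host_inr_inr hadj
  have hgood1 : ∀ φ ∈ XU \ Bad, ∀ w w', φ w = .inl v → φ w' ≠ .inl y := by
    rintro φ ⟨⟨_, _, hr⟩, hnb⟩ w w' hw hw'
    apply hnb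
    refine ⟨hr, w, w', ?_⟩
    rw [hw, hw', hPdef]
    simp
  -- neighbours of the root are not mapped to y
  have hrooty : ∀ φ ∈ XU, ∀ w, F.Adj r w → φ w ≠ .inl y := by
    rintro φ ⟨_, hhom, hr⟩ w hw hwy
    have := hhom r w hw
    rw [hr, hwy, host_inl_inl] at this
    rcases this.2 with h | h
    · simp [hu, hy] at h
    · simp only [hu, hy] at h
      omega
  have hΘinj : ∀ φ ∈ XU \ Bad, Injective (Θ φ) := by
    intro φ hφ a b hab
    have hinj := hφ.1.1
    simp only [hΘ] at hab
    rcases ha : φ a with xa | sa <;> rcases hb : φ b with xb | sb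
    · rw [ha, hb] at hab
      simp only [Sum.elim_inl] at hab
      apply hinj
      rw [ha, hb, (Equiv.swap u v).injective hab]
    · rw [ha, hb] at hab
      simp only [Sum.elim_inl, Sum.elim_inr] at hab
      rw [← hswy] at hab
      have := (Equiv.swap u v).injective hab
      rw [this] at ha
      exact absurd ha ((hgood2 φ hφ b sb hb).1 a)
    · rw [ha, hb] at hab
      simp only [Sum.elim_inl, Sum.elim_inr] at hab
      rw [← hswy] at hab
      have := (Equiv.swap u v).injective hab
      rw [← this] at hb
      exact absurd hb ((hgood2 φ hφ a sa ha).1 b)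
    · have h1 := hH φ hφ.1 a sa ha
      have h2 := hH φ hφ.1 b sb hb
      apply hinj
      rw [ha, hb, h1, h2]
  -- adjacency in the base graph under the swap
  have hswadj : ∀ x z : Bool × Fin M, (base M).Adj x z → ¬ (x = v ∧ z = y) → ¬ (x = y ∧ z = v) →
      (base M).Adj (Equiv.swap u v x) (Equiv.swap u v z) := by
    intro x z hxz hn1 hn2
    refine ⟨fun h => hxz.1 ((Equiv.swap u v).injective h), ?_⟩
    obtain ⟨hne, hor⟩ := hxz
    obtain ⟨xb, xi⟩ := x
    obtain ⟨zb, zi⟩ := z
    have key : ∀ (b : Bool) (l : Fin M), Equiv.swap u v (b, l) = (b, l) ∨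
        ((b, l) = u ∧ Equiv.swap u v (b, l) = v) ∨ ((b, l) = v ∧ Equiv.swap u v (b, l) = u) := by
      intro b l
      by_cases h1 : (b, l) = u
      · right; left; exact ⟨h1, by rw [h1, Equiv.swap_apply_left]⟩
      · by_cases h2 : (b, l) = v
        · right; right; exact ⟨h2, by rw [h2, Equiv.swap_apply_right]⟩
        · left; exact Equiv.swap_apply_of_ne_of_ne h1 h2
    rcases key xb xi with hx | ⟨hx, hx'⟩ | ⟨hx, hx'⟩ <;>
      rcases key zb zi with hz | ⟨hz, hz'⟩ | ⟨hz, hz'⟩
    · rw [hx, hz]; exact hor
    · rw [hx, hz']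
      simp only [hu, Prod.mk.injEq] at hz
      obtain ⟨rfl, rfl⟩ := hz
      rcases hor with h | h
      · left; simpa [hv] using h
      · right; simp only [hv] at h ⊢; omega
    · rw [hx, hz']
      simp only [hv, Prod.mk.injEq] at hz
      obtain ⟨rfl, rfl⟩ := hz
      rcases hor with h | h
      · left; simpa [hu] using h
      · rcases xb with _ | _
        · right
          simp only at h
          simp only [hu]
          by_contra hcon
          apply hn2
          refine ⟨?_, rfl⟩
          simp only [hy, Prod.mk.injEq, true_and]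
          exact Fin.ext (by simp only; omega)
        · left; rfl
    · rw [hx', hz]
      simp only [hu, Prod.mk.injEq] at hx
      obtain ⟨rfl, rfl⟩ := hx
      rcases hor with h | h
      · left; simpa [hv] using h
      · right; simp only [hv] at h ⊢; omega
    · exfalso; apply hne; rw [hx, hz]
    · rw [hx', hz']; left; rfl
    · rw [hx', hz]
      simp only [hv, Prod.mk.injEq] at hx
      obtain ⟨rfl, rfl⟩ := hx
      rcases hor with h | h
      · left; simpa [hu] using h
      · rcases zb with _ | _
        · right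
          simp only at h
          simp only [hu]
          by_contra hcon
          apply hn1
          refine ⟨rfl, ?_⟩
          simp only [hy, Prod.mk.injEq, true_and]
          exact Fin.ext (by simp only; omega)
        · left; rfl
    · rw [hx', hz']; left; rfl
    · exfalso; apply hne; rw [hx, hz]
  have hΘmem : ∀ φ ∈ XU \ Bad, Θ φ ∈ X F r (base M) v := by
    intro φ hφ
    have hr : φ r = .inl u := hφ.1.2.2
    refine ⟨hΘinj φ hφ, ?_, ?_⟩
    · intro a b hab
      have hadj := hφ.1.2.1 a b hab
      simp only [hΘ]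
      rcases ha : φ a with xa | sa <;> rcases hb : φ b with xb | sb
      · simp only [Sum.elim_inl]
        rw [ha, hb] at hadj
        apply hswadj xa xb hadj
        · rintro ⟨rfl, rfl⟩
          exact hgood1 φ hφ a b ha hb
        · rintro ⟨rfl, rfl⟩
          exact hgood1 φ hφ b a hb ha
      · -- `b` is mapped to the extra vertex, so `a = r`
        have har : a = r := (hgood2 φ hφ b sb hb).2 a hab.symm
        subst har
        rw [hr] at ha
        simp only [Sum.elim_inl, Sum.elim_inr]
        rw [← Sum.inl_injective ha, Equiv.swap_apply_left]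
        refine ⟨hvy, Or.inr ?_⟩
        simp only [hv, hy]; omega
      · have hbr : b = r := (hgood2 φ hφ a sa ha).2 b hab
        subst hbr
        rw [hr] at hb
        simp only [Sum.elim_inl, Sum.elim_inr]
        rw [← Sum.inl_injective hb, Equiv.swap_apply_left]
        refine ⟨hvy.symm, Or.inr ?_⟩
        simp only [hv, hy]; omega
      · rw [ha, hb] at hadj
        exact absurd hadj host_inr_inr
    · simp only [hΘ, hr, Sum.elim_inl, Equiv.swap_apply_left]
  have hΘinjOn : Set.InjOn Θ (XU \ Bad) := by
    intro φ hφ ψ hψ heq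
    funext w
    have hw := congrFun heq w
    simp only [hΘ] at hw
    rcases ha : φ w with xa | sa <;> rcases hb : ψ w with xb | sb
    · rw [ha, hb] at hw
      simp only [Sum.elim_inl] at hw
      rw [(Equiv.swap u v).injective hw]
    · exfalso
      rw [ha, hb] at hw
      simp only [Sum.elim_inl, Sum.elim_inr] at hw
      rw [← hswy] at hw
      have h3 := (Equiv.swap u v).injective hw
      rw [h3] at ha
      obtain ⟨w', hw'⟩ := hF w
      have hw'r := (hgood2 ψ hψ w sb hb).2 w' hw'
      subst hw'r
      exact hrooty φ hφ.1 w hw'.symm ha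
    · exfalso
      rw [ha, hb] at hw
      simp only [Sum.elim_inl, Sum.elim_inr] at hw
      rw [← hswy] at hw
      have h3 := (Equiv.swap u v).injective hw
      rw [← h3] at hb
      obtain ⟨w', hw'⟩ := hF w
      have hw'r := (hgood2 φ hφ w sa ha).2 w' hw'
      subst hw'r
      exact hrooty ψ hψ.1 w hw'.symm hb
    · rw [hH φ hφ.1 w sa ha, hH ψ hψ.1 w sb hb]
  -- the extra copies
  set Ex : Set (W → Bool × Fin M) := {φ ∈ X F r (base M) v | φ c0 = y} with hEx
  have hExcard : (M - 2).descFactorial (Fintype.card W - 2) ≤ Ex.ncard := by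
    have hc0 : c0 ≠ r := h0.ne'
    have hK := clique_lb2 F r c0 hc0 (base M) (univ.image (cl M i hi)) ?_ v y ?_ ?_ hvy
    · rwa [card_image_of_injective _ (cl_injective M i hi), card_univ, Fintype.card_fin] at hK
    · intro a ha b hb hab
      rw [mem_image] at ha hb
      obtain ⟨a', _, rfl⟩ := ha
      obtain ⟨b', _, rfl⟩ := hb
      exact cl_adj M i hi a' b' (fun h => hab (by rw [h]))
    · rw [mem_image]
      refine ⟨⟨i + 1, hi⟩, mem_univ _, ?_⟩
      simp [cl, hv]
    · rw [mem_image]
      refine ⟨⟨0, by omega⟩, mem_univ _, ?_⟩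
      simp [cl, hy]
  have hdisj : Disjoint (Θ '' (XU \ Bad)) Ex := by
    rw [Set.disjoint_left]
    rintro ψ ⟨φ, hφ, rfl⟩ ⟨_, hψ⟩
    simp only [hΘ] at hψ
    rcases ha : φ c0 with xa | sa
    · rw [ha] at hψ
      simp only [Sum.elim_inl] at hψ
      rw [← hswy] at hψ
      have h3 := (Equiv.swap u v).injective hψ
      rw [h3] at ha
      exact hrooty φ hφ.1 c0 h0 ha
    · exact hc1 ((hgood2 φ hφ c0 sa ha).2 c1 h1)
  have hunion : (XU \ Bad).ncard + Ex.ncard ≤ (X F r (base M) v).ncard := by
    rw [← Set.ncard_image_of_injOn hΘinjOn, ← Set.ncard_union_eq hdisj]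
    refine Set.ncard_le_ncard (Set.union_subset ?_ ?_) (Set.toFinite _)
    · rintro ψ ⟨φ, hφ, rfl⟩
      exact hΘmem φ hφ
    · intro ψ hψ; exact hψ.1
  have hsplit : XU.ncard ≤ (XU \ Bad).ncard + Bad.ncard := by
    calc XU.ncard ≤ ((XU \ Bad) ∪ Bad).ncard := by
          refine Set.ncard_le_ncard ?_ (Set.toFinite _)
          intro x hx
          by_cases h : x ∈ Bad
          · right; exact h
          · left; exact ⟨hx, h⟩
      _ ≤ _ := Set.ncard_union_le _ _
  omega

end Pool.Agent.Lib.MP_c25556_co
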