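import Pool.Agent.Lib.MP_c25556_co.Degree
import Pool.Agent.Lib.MP_c25556_co.Step
import Pool.Agent.Lib.MP_c25556_co.Flip
import Pool.Agent.Lib.MP_c25556_co.Numeric

open Finset Function SimpleGraph

namespace Pool.Agent.Lib.MP_c25556_co

variable {W : Type*}

/-- The ordering of the vertices of the host graph by a function implies its injectivity. -/
lemma chain_injective {M q : ℕ} (hM : 0 < M) (f : (Bool × Fin M) ⊕ Fin q → ℕ)
    (hP : ∀ i : Fin M, f (.inl (false, i)) < f (.inl (true, i)))
    (hQ : ∀ (i : ℕ) (hi : i + 1 < M),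
      f (.inl (true, ⟨i, by omega⟩)) < f (.inl (false, ⟨i + 1, hi⟩)))
    (hR : ∀ s : Fin q, f (.inr s) < f (.inl (false, ⟨0, hM⟩)))
    (hS : ∀ s s' : Fin q, f (.inr s) = f (.inr s') → s = s') :
    ∀ x y, f x = f y → x = y := by
  have h1 : ∀ (d i : ℕ) (hi : i + 1 + d < M),
      f (.inl (true, ⟨i, by omega⟩)) < f (.inl (false, ⟨i + 1 + d, hi⟩)) := by
    intro d
    induction d with
    | zero => intro i hi; exact hQ i hi
    | succ d ih =>
      intro i hi
      have h2 := ih i (by omega)
      have h3 := hP ⟨i + 1 + d, by omega⟩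
      have h4 := hQ (i + 1 + d) (by omega)
      calc f (.inl (true, ⟨i, by omega⟩)) < f (.inl (false, ⟨i + 1 + d, by omega⟩)) := h2
        _ < f (.inl (true, ⟨i + 1 + d, by omega⟩)) := h3
        _ < f (.inl (false, ⟨i + 1 + d + 1, by omega⟩)) := h4
  have h2 : ∀ i j : Fin M, i < j → f (.inl (true, i)) < f (.inl (false, j)) := by
    intro i j hij
    have hij' : (i : ℕ) < j := hij
    have h := h1 (j - i - 1) i (by omega)
    have e : (⟨(i : ℕ) + 1 + (j - i - 1), by omega⟩ : Fin M) = j := Fin.ext (by simp only; omega)
    rw [e] at h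
    exact h
  have h3 : ∀ (b b' : Bool) (i j : Fin M), i < j → f (.inl (b, i)) < f (.inl (b', j)) := by
    intro b b' i j hij
    have e1 : f (.inl (b, i)) ≤ f (.inl (true, i)) := by
      rcases b with _ | _
      · exact (hP i).le
      · exact le_refl _
    have e2 : f (.inl (false, j)) ≤ f (.inl (b', j)) := by
      rcases b' with _ | _
      · exact le_refl _
      · exact (hP j).le
    exact lt_of_le_of_lt e1 (lt_of_lt_of_le (h2 i j hij) e2)
  have h4 : ∀ (s : Fin q) (b : Bool) (j : Fin M), f (.inr s) < f (.inl (b, j)) := by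
    intro s b j
    by_cases hj : (⟨0, hM⟩ : Fin M) < j
    · exact lt_trans (hR s) (h3 false b _ j hj)
    · have : j = ⟨0, hM⟩ := by
        apply Fin.ext
        have : ¬ (0 : ℕ) < j := fun h => hj h
        simp only; omega
      subst this
      rcases b with _ | _
      · exact hR s
      · exact lt_trans (hR s) (hP _)
  intro x y hxy
  rcases x with ⟨b, i⟩ | s <;> rcases y with ⟨b', j⟩ | t
  · rcases lt_trichotomy i j with h | h | h
    · exact absurd hxy (h3 b b' i j h).ne
    · subst h
      rcases b with _ | _ <;> rcases b' with _ | _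
      · rfl
      · exact absurd hxy (hP i).ne
      · exact absurd hxy (hP i).ne'
      · rfl
    · exact absurd hxy (h3 b' b j i h).ne'
  · exact absurd hxy (h4 t b i).ne'
  · exact absurd hxy (h4 s b' j).ne
  · rw [hS s t hxy]

lemma exists_nbr {F : SimpleGraph W} (hF : F.Connected) [Fintype W] (h3 : 3 ≤ Fintype.card W) :
    ∀ w, ∃ w', F.Adj w w' := by
  classical
  intro w
  obtain ⟨v, hv⟩ : ∃ v, v ≠ w := by
    by_contra hcon
    push Not at hcon
    have : Fintype.card W ≤ 1 := Fintype.card_le_one_iff.mpr (fun a b => by rw [hcon a, hcon b])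
    omega
  obtain ⟨p⟩ := hF.preconnected w v
  obtain ⟨d, _, hd1, hd2⟩ := p.exists_boundary_dart {w} rfl (by simpa using hv)
  have : d.fst = w := hd1
  exact ⟨d.snd, this ▸ d.adj⟩

/-- Non-dominating root: there is a path `r, c0, c1` with `c1` at distance two. -/
lemma exists_dist_two {F : SimpleGraph W} (hF : F.Connected) {r z : W} (hz : z ≠ r)
    (hrz : ¬ F.Adj r z) : ∃ c0 c1, F.Adj r c0 ∧ F.Adj c0 c1 ∧ c1 ≠ r ∧ ¬ F.Adj r c1 := by
  obtain ⟨p⟩ := hF.preconnected r z
  obtain ⟨d, _, hd1, hd2⟩ := p.exists_boundary_dart {w | w = r ∨ F.Adj r w} (Or.inl rfl)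
    (by simp [hz, hrz])
  simp only [Set.mem_setOf_eq, not_or] at hd1 hd2
  rcases hd1 with h | h
  · exact absurd (h ▸ d.adj) hd2.2
  · exact ⟨d.fst, d.snd, h, d.adj, hd2.1, hd2.2⟩

/-- The colouring used when the root does not dominate. -/
def col2 (M L : ℕ) : Fin M → Option (Fin 1) :=
  fun t => if (t : ℕ) < L ∨ M - L ≤ (t : ℕ) then some 0 else none

lemma col2_card (M L : ℕ) (h : 2 * L ≤ M) :
    (univ.filter (fun t => col2 M L t = some 0)).card = 2 * L := by
  classical
  have h1 : (univ.filter (fun t : Fin M => col2 M L t = some 0))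
      = (univ : Finset (Fin L ⊕ Fin L)).image
        (Sum.elim (fun t : Fin L => (⟨(t : ℕ), by omega⟩ : Fin M))
          (fun t : Fin L => (⟨M - 1 - (t : ℕ), by omega⟩ : Fin M))) := by
    ext t
    simp only [mem_filter, mem_univ, true_and, mem_image, Sum.exists, Sum.elim_inl, Sum.elim_inr]
    unfold col2
    constructor
    · intro ht
      split_ifs at ht with hc
      rcases hc with hc | hc
      · left; exact ⟨⟨t, hc⟩, rfl⟩
      · right
        have := t.2
        exact ⟨⟨M - 1 - t, by omega⟩, Fin.ext (by simp only; omega)⟩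
    · rintro (⟨a, rfl⟩ | ⟨a, rfl⟩)
      · simp
      · have := a.2
        rw [if_pos]
        right
        simp only
        omega
  rw [h1, card_image_of_injective]
  · simp; ring
  · intro a b hab
    rcases a with a | a <;> rcases b with b | b
    · simp only [Sum.elim_inl, Fin.mk.injEq] at hab
      rw [Fin.ext hab]
    · simp only [Sum.elim_inl, Sum.elim_inr, Fin.mk.injEq] at hab
      have := a.2; have := b.2; omega
    · simp only [Sum.elim_inl, Sum.elim_inr, Fin.mk.injEq] at hab
      have := a.2; have := b.2; omega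
    · simp only [Sum.elim_inr, Fin.mk.injEq] at hab
      have := a.2; have := b.2
      rw [Fin.ext (a := a) (b := b) (by omega)]

lemma col2_low (M L : ℕ) (h : 2 * L ≤ M) (i : Fin M) (hi : col2 M L i = none) :
    L ≤ (univ.filter (fun t : Fin M => col2 M L t = some 0 ∧ (i : ℕ) + t < M)).card := by
  classical
  have h1 : ((univ : Finset (Fin L)).image
      (fun t : Fin L => (⟨(t : ℕ), by omega⟩ : Fin M))).card = L := by
    rw [card_image_of_injective, card_univ, Fintype.card_fin]
    intro a b hab
    simp only [Fin.mk.injEq] at hab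
    exact Fin.ext hab
  calc L = _ := h1.symm
    _ ≤ _ := by
      apply card_le_card
      intro t ht
      rw [mem_image] at ht
      obtain ⟨a, _, rfl⟩ := ht
      simp only [mem_filter, mem_univ, true_and]
      have ha := a.2
      unfold col2 at hi ⊢
      split_ifs at hi with hc
      constructor
      · rw [if_pos]; left; exact ha
      · omega

/-- The case in which the root is not adjacent to all other vertices. -/
lemma case_nondominating [Fintype W] (F : SimpleGraph W) (hF : F.Connected)
    (h3 : 3 ≤ Fintype.card W) (r : W) (z : W) (hz : z ≠ r) (hrz : ¬ F.Adj r z) (N : ℕ) :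
    ∃ M q : ℕ, ∃ c : Fin M → Option (Fin q), N ≤ 2 * M + q ∧ RootedIrregular F r (host M q c) := by
  classical
  obtain ⟨c0, c1, h0, h1, hc1, hn⟩ := exists_dist_two hF hz hrz
  set k := Fintype.card W with hk
  set L : ℕ := k ^ 3 * (4 * DD k) ^ (k - 3) + k + N + 1 with hL
  set M : ℕ := DD k * L with hM
  have hDD := DD_pos h3
  have hkL : k ≤ L := by omega
  have hDk : 4 ≤ DD k := by
    unfold DD
    have : 1 ≤ k ^ 2 * 8 ^ k := Nat.one_le_iff_ne_zero.mpr (by positivity)
    nlinarith
  have hML : 4 * L ≤ M := by rw [hM]; exact Nat.mul_le_mul_right L hDk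
  have hM2k : 2 * k ≤ M := by omega
  have hMpos : 0 < M := by omega
  have hn4 : 2 * M + 1 ≤ 4 * M := by omega
  refine ⟨M, 1, col2 M L, by omega, ?_⟩
  apply rootedIrregular_of_ncard
  have hcard := col2_card M L (by omega)
  have hnum1 := numeric1 k L M (2 * M + 1) h3 hM2k hn4 (by omega) (le_of_eq hM.symm)
  have hnum3 := numeric3 k L M (2 * M + 1) h3 hM2k hn4 (by omega) (le_of_eq hM.symm)
  have hnum2 := numeric2 k L (2 * M + 1) (4 * DD k) h3 (by rw [mul_assoc, ← hM]; exact hn4) hkL
    (by omega)
  apply chain_injective hMpos (fun x => (X F r (host M 1 (col2 M L)) x).ncard)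
  · -- positivity
    intro i
    have hfl := flip_lemma F r M (col2 M L) i
    rw [← hk] at hfl
    rcases hci : col2 M L i with _ | s
    · have hZ := Zset_lb2 F r c0 c1 h0 h1 hc1 hn M (col2 M L) i hci
      rw [hcard, ← hk] at hZ
      have hlow := col2_low M L (by omega) i hci
      have : L * (2 * L - 1).descFactorial (k - 3) ≤ (Zset F r M (col2 M L) i).ncard :=
        le_trans (Nat.mul_le_mul_right _ hlow) hZ
      omega
    · have hs : s = 0 := Subsingleton.elim _ _
      subst hs
      have hZ := Zset_lb1 F r c0 h0 M (col2 M L) i hci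
      rw [hcard, ← hk] at hZ
      omega
  · -- step
    intro i hi
    have hst := step (q := 1) (c := col2 M L) F r c0 c1 h0 h1 hc1 (exists_nbr hF h3) i hi 0 (2 * L)
      hcard.le (fun φ _ w s' _ => Subsingleton.elim _ _)
    rw [← base_X_flip, ← hk] at hst
    have hle := base_le_host (q := 1) (c := col2 M L) F r (false, ⟨i + 1, hi⟩)
    omega
  · -- the extra vertex
    intro s
    have hs : s = 0 := Subsingleton.elim _ _
    subst hs
    have hlow : (M - 1).descFactorial (k - 1) ≤
        (X F r (host M 1 (col2 M L)) (.inl (false, ⟨0, hMpos⟩))).ncard := by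
      have := clique_lb1 F r (host M 1 (col2 M L))
        ((univ : Finset (Fin M)).image (fun t => (.inl (false, t) : (Bool × Fin M) ⊕ Fin 1)))
        ?_ (.inl (false, ⟨0, hMpos⟩)) ?_
      · rwa [card_image_of_injective, card_univ, Fintype.card_fin, ← hk] at this
        intro a b hab
        simpa using hab
      · intro x hx y hy hxy
        rw [mem_image] at hx hy
        obtain ⟨a, _, rfl⟩ := hx
        obtain ⟨b, _, rfl⟩ := hy
        rw [host_inl_inl]
        exact ⟨fun h => hxy (by rw [h]), Or.inl rfl⟩
      · rw [mem_image]; exact ⟨_, mem_univ _, rfl⟩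
    have hup : (X F r (host M 1 (col2 M L)) (.inr 0)).ncard ≤ 2 * L * (2 * M + 1) ^ (k - 2) := by
      set A0 : Finset (Fin M) := univ.filter (fun t => col2 M L t = some 0) with hA0
      have hsub : X F r (host M 1 (col2 M L)) (.inr 0) ⊆
          ⋃ t : {t // t ∈ A0}, {φ : W → (Bool × Fin M) ⊕ Fin 1 | φ r = .inr 0 ∧
            φ c0 = .inl (true, t.1)} := by
        rintro φ ⟨hinj, hhom, hr⟩
        rw [Set.mem_iUnion]
        have hadj := hhom r c0 h0
        rw [hr] at hadj
        rcases hc : φ c0 with x | s
        · rw [hc, host_inr_inl] at hadj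
          refine ⟨⟨x.2, by simp [hA0, hadj.2]⟩, hr, ?_⟩
          rw [hc]
          congr 1
          exact Prod.ext hadj.1 rfl
        · rw [hc] at hadj
          exact absurd hadj host_inr_inr
      calc _ ≤ _ := Set.ncard_le_ncard hsub (Set.toFinite _)
        _ ≤ ∑ t : {t // t ∈ A0}, _ := Set.ncard_iUnion_le_of_fintype _
        _ ≤ ∑ t : {t // t ∈ A0}, (2 * M + 1) ^ (k - 2) := by
            apply Finset.sum_le_sum
            intro t _
            have hc2 : ({r, c0} : Finset W).card = 2 := card_pair h0.ne
            rw [← card_V (M := M) (q := 1), ← hc2, hk]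
            apply ncard_le_pow
            rintro φ ⟨h1, h2⟩ ψ ⟨h4, h5⟩ hag
            funext z
            by_cases hz : z ∈ ({r, c0} : Finset W)
            · simp only [mem_insert, mem_singleton] at hz
              rcases hz with rfl | rfl
              · rw [h1, h4]
              · rw [h2, h5]
            · exact hag z hz
        _ = 2 * L * (2 * M + 1) ^ (k - 2) := by
            rw [sum_const, smul_eq_mul, card_univ, Fintype.card_coe, hA0, hcard]
    omega
  · intro s s' _
    exact Subsingleton.elim _ _

/-- The colouring used when the root dominates. -/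
def col1 (q L : ℕ) : Fin (∑ j : Fin q, (L + (j : ℕ))) → Option (Fin q) :=
  fun t => some (finSigmaFinEquiv.symm t).1

lemma col1_card (q L : ℕ) (s : Fin q) :
    (univ.filter (fun t => col1 q L t = some s)).card = L + s := by
  classical
  have h : (univ.filter (fun t => col1 q L t = some s))
      = (univ : Finset (Fin (L + (s : ℕ)))).image
        (fun a => finSigmaFinEquiv (n := fun j : Fin q => L + (j : ℕ)) ⟨s, a⟩) := by
    ext t
    simp only [mem_filter, mem_univ, true_and, mem_image, col1, Option.some.injEq]
    constructor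
    · intro h
      obtain ⟨⟨s', a⟩, ht⟩ : ∃ p, finSigmaFinEquiv (n := fun j : Fin q => L + (j : ℕ)) p = t :=
        ⟨_, Equiv.apply_symm_apply _ t⟩
      rw [← ht, Equiv.symm_apply_apply] at h
      simp only at h
      subst h
      exact ⟨a, ht⟩
    · rintro ⟨a, rfl⟩
      rw [Equiv.symm_apply_apply]
  rw [h, card_image_of_injective, card_univ, Fintype.card_fin]
  intro a b hab
  have := (finSigmaFinEquiv (n := fun j : Fin q => L + (j : ℕ))).injective hab
  simpa using this

lemma exists_col1 (q L : ℕ) : ∃ (M : ℕ) (c : Fin M → Option (Fin q)), q * L ≤ M ∧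
    (∀ t, ∃ s, c t = some s) ∧
    ∀ s : Fin q, (univ.filter (fun t => c t = some s)).card = L + s := by
  refine ⟨∑ j : Fin q, (L + (j : ℕ)), col1 q L, ?_, fun t => ⟨_, rfl⟩, col1_card q L⟩
  calc q * L = ∑ j : Fin q, L := by simp
    _ ≤ _ := by
      apply Finset.sum_le_sum
      intro j _; omega

/-- The case in which the root is adjacent to all other vertices. -/
lemma case_dominating [Fintype W] (F : SimpleGraph W) (hF : F.Connected)
    (h3 : 3 ≤ Fintype.card W) (r : W) (hdom : ∀ w, w ≠ r → F.Adj r w)
    (c0 c1 : W) (h1 : F.Adj c0 c1) (hc0 : c0 ≠ r) (hc1 : c1 ≠ r) (N : ℕ) :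
    ∃ M q : ℕ, ∃ c : Fin M → Option (Fin q), N ≤ 2 * M + q ∧ RootedIrregular F r (host M q c) := by
  classical
  have h0 : F.Adj r c0 := hdom c0 hc0
  set k := Fintype.card W with hk
  set q : ℕ := DD k with hq
  set L : ℕ := q + k + N with hL
  obtain ⟨M, cc, hqL, hcc, hcccard⟩ := exists_col1 q L
  have hDD := DD_pos h3
  have hDk : 4 ≤ DD k := by
    unfold DD
    have : 1 ≤ k ^ 2 * 8 ^ k := Nat.one_le_iff_ne_zero.mpr (by positivity)
    nlinarith
  have hML : 4 * L ≤ M := le_trans (Nat.mul_le_mul_right L hDk) hqL
  have hM2k : 2 * k ≤ M := by omega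
  have hMpos : 0 < M := by omega
  have hn4 : 2 * M + q ≤ 4 * M := by omega
  refine ⟨M, q, cc, by omega, ?_⟩
  apply rootedIrregular_of_ncard
  have hnum1 := numeric1 k L M (2 * M + q) h3 hM2k hn4 (by omega) hqL
  -- values of copies rooted in the cliques
  have hroot : ∀ (b : Bool) (i : Fin M), ∀ φ ∈ X F r (host M q (cc)) (.inl (b, i)),
      ∀ w s, φ w = .inr s → b = true ∧ cc i = some s := by
    rintro b i φ ⟨hinj, hhom, hr⟩ w s hw
    have hwr : w ≠ r := by
      rintro rfl
      rw [hr] at hw; simp at hw
    have := hhom r w (hdom w hwr)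
    rw [hr, hw, host_inl_inr] at this
    exact this
  have hcl : ∀ s : Fin q, ∀ x ∈ insert (.inr s : (Bool × Fin M) ⊕ Fin q)
      ((univ.filter (fun t => cc t = some s)).image
        (fun t => (.inl (true, t) : (Bool × Fin M) ⊕ Fin q))),
      ∀ y ∈ insert (.inr s : (Bool × Fin M) ⊕ Fin q)
      ((univ.filter (fun t => cc t = some s)).image
        (fun t => (.inl (true, t) : (Bool × Fin M) ⊕ Fin q))),
      x ≠ y → (host M q (cc)).Adj x y := by
    intro s x hx y hy hxy
    rw [mem_insert, mem_image] at hx hy
    rcases hx with rfl | ⟨a, ha, rfl⟩ <;> rcases hy with rfl | ⟨b, hb, rfl⟩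
    · exact absurd rfl hxy
    · simp only [mem_filter, mem_univ, true_and] at hb
      exact ⟨rfl, hb⟩
    · simp only [mem_filter, mem_univ, true_and] at ha
      exact ⟨rfl, ha⟩
    · rw [host_inl_inl]
      exact ⟨fun h => hxy (by rw [h]), Or.inl rfl⟩
  have hclcard : ∀ s : Fin q, (insert (.inr s : (Bool × Fin M) ⊕ Fin q)
      ((univ.filter (fun t => cc t = some s)).image
        (fun t => (.inl (true, t) : (Bool × Fin M) ⊕ Fin q)))).card
      = L + s + 1 := by
    intro s
    rw [card_insert_of_notMem (by simp), card_image_of_injective, hcccard _]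
    intro a b hab
    simpa using hab
  -- value at the extra vertices
  have hval : ∀ s : Fin q, (X F r (host M q (cc)) (.inr s)).ncard
      = (L + s).descFactorial (k - 1) := by
    intro s
    apply le_antisymm
    · -- upper bound
      have hc : Fintype.card ({w // w ≠ r} ↪ {t : Fin M // cc t = some s})
          = (L + s).descFactorial (k - 1) := by
        rw [Fintype.card_embedding_eq]
        congr 1
        · rw [Fintype.card_subtype, hcccard _]
        · simp [Fintype.card_subtype_compl, hk]
      rw [← hc, ← Nat.card_eq_fintype_card, ← Nat.card_coe_set_eq]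
      have hv : ∀ φ : X F r (host M q (cc)) (.inr s), ∀ w : {w // w ≠ r},
          ∃ t : {t : Fin M // cc t = some s}, φ.1 w.1 = .inl (true, t.1) := by
        rintro ⟨φ, hinj, hhom, hr⟩ ⟨w, hw⟩
        have hadj := hhom r w (hdom w hw)
        rw [hr] at hadj
        rcases hc : φ w with x | s'
        · rw [hc, host_inr_inl] at hadj
          exact ⟨⟨x.2, hadj.2⟩, by simp only [hc]; congr 1; exact Prod.ext hadj.1 rfl⟩
        · rw [hc] at hadj
          exact absurd hadj host_inr_inr
      choose g hg using hv
      apply Nat.card_le_card_of_injective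
        (fun φ : X F r (host M q (cc)) (.inr s) =>
          (⟨g φ, by
            intro a b hab
            apply Subtype.ext
            apply φ.2.1
            rw [hg φ a, hg φ b, hab]⟩ : {w // w ≠ r} ↪ {t : Fin M // cc t = some s}))
      intro φ ψ h
      apply Subtype.ext
      funext w
      by_cases hw : w = r
      · rw [hw, φ.2.2.2, ψ.2.2.2]
      · have h1 := hg φ ⟨w, hw⟩
        have h2 := hg ψ ⟨w, hw⟩
        simp only at h1 h2
        rw [h1, h2]
        have := congrArg (fun e => e.toFun ⟨w, hw⟩) h
        simp only at this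
        rw [this]
    · have := clique_lb1 F r (host M q (cc)) _ (hcl s) (.inr s) (mem_insert_self _ _)
      rw [hclcard, ← hk] at this
      simpa using this
  apply chain_injective hMpos (fun x => (X F r (host M q (cc)) x).ncard)
  · -- positivity
    intro i
    have hci : ∃ s, cc i = some s := hcc i
    obtain ⟨s, hs⟩ := hci
    have hup : (X F r (host M q (cc)) (.inl (false, i))).ncard
        ≤ (X F r (base M) (false, i)).ncard := by
      apply Set.ncard_le_ncard_of_injOn (fun φ : W → (Bool × Fin M) ⊕ Fin q => fun w =>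
        Sum.elim id (fun _ => (false, i)) (φ w)) ?_ ?_ (Set.toFinite _)
      · intro φ hφ
        have hinl : ∀ w, ∃ x, φ w = .inl x := by
          intro w
          rcases hw : φ w with x | s'
          · exact ⟨x, rfl⟩
          · have := (hroot false i φ hφ w s' hw).1
            simp at this
        obtain ⟨hinj, hhom, hr⟩ := hφ
        choose g hg using hinl
        have hfun : (fun w => Sum.elim id (fun _ => (false, i)) (φ w)) = g := by
          funext w; rw [hg w]; rfl
        rw [hfun]
        refine ⟨?_, ?_, ?_⟩
        · intro a b hab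
          apply hinj
          rw [hg a, hg b, hab]
        · intro a b hab
          have := hhom a b hab
          rw [hg a, hg b] at this
          exact this
        · have := hg r
          rw [hr] at this
          exact (Sum.inl_injective this).symm
      · intro φ hφ ψ hψ heq
        funext w
        have hw := congrFun heq w
        simp only at hw
        rcases ha : φ w with x | s'
        · rcases hb : ψ w with y | s''
          · rw [ha, hb] at hw
            simp only [Sum.elim_inl, id] at hw
            rw [hw]
          · have := (hroot false i ψ hψ w s'' hb).1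
            simp at this
        · have := (hroot false i φ hφ w s' ha).1
          simp at this
    have hlow : (X F r (base M) (true, i)).ncard
        + {φ ∈ X F r (host M q (cc)) (.inl (true, i)) | φ c0 = .inr s}.ncard
        ≤ (X F r (host M q (cc)) (.inl (true, i))).ncard := by
      have hinjOn : Set.InjOn
          (fun (φ : W → Bool × Fin M) => fun w => (.inl (φ w) : (Bool × Fin M) ⊕ Fin q))
          (X F r (base M) (true, i)) := by
        intro φ _ ψ _ h
        funext w
        exact Sum.inl_injective (congrFun h w)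
      rw [← Set.ncard_image_of_injOn hinjOn, ← Set.ncard_union_eq]
      · refine Set.ncard_le_ncard (Set.union_subset ?_ ?_) (Set.toFinite _)
        · rintro ψ ⟨φ, ⟨e1, e2, e3⟩, rfl⟩
          refine ⟨?_, ?_, ?_⟩
          · intro a b hab
            exact e1 (Sum.inl_injective hab)
          · intro a b hab
            exact e2 a b hab
          · simp [e3]
        · intro ψ hψ; exact hψ.1
      · rw [Set.disjoint_left]
        rintro ψ ⟨φ, _, rfl⟩ ⟨_, h⟩
        simp at h
    have hpos : 0 < {φ ∈ X F r (host M q (cc)) (.inl (true, i)) | φ c0 = .inr s}.ncard := by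
      have := clique_lb2 F r c0 hc0 (host M q (cc)) _ (hcl s) (.inl (true, i)) (.inr s)
        (by
          rw [mem_insert, mem_image]; right
          exact ⟨i, by simp [hs], rfl⟩) (mem_insert_self _ _) (by simp)
      rw [hclcard, ← hk] at this
      refine lt_of_lt_of_le ?_ this
      rw [Nat.descFactorial_pos]
      omega
    have hflip := base_X_flip (M := M) F r i
    omega
  · -- step
    intro i hi
    have hci : ∃ s, cc ⟨i, by omega⟩ = some s := hcc _
    obtain ⟨s, hs⟩ := hci
    have hst := step (q := q) (c := cc) F r c0 c1 h0 h1 hc1 (exists_nbr hF h3) i hi s (2 * L)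
      (by rw [hcccard _]; have := s.2; omega)
      (fun φ hφ w s' hw => by
        have := (hroot true ⟨i, by omega⟩ φ hφ w s' hw).2
        rw [hs] at this
        exact (Option.some_injective _ this).symm)
    rw [← base_X_flip, ← hk] at hst
    have hle := base_le_host (q := q) (c := cc) F r (false, ⟨i + 1, hi⟩)
    omega
  · -- the extra vertices are lowest
    intro s
    rw [hval s]
    have hlow : (M - 1).descFactorial (k - 1) ≤
        (X F r (host M q (cc)) (.inl (false, ⟨0, hMpos⟩))).ncard := by
      have := clique_lb1 F r (host M q (cc))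
        ((univ : Finset (Fin M)).image (fun t => (.inl (false, t) : (Bool × Fin M) ⊕ Fin q)))
        ?_ (.inl (false, ⟨0, hMpos⟩)) ?_
      · rwa [card_image_of_injective, card_univ, Fintype.card_fin, ← hk] at this
        intro a b hab
        simpa using hab
      · intro x hx y hy hxy
        rw [mem_image] at hx hy
        obtain ⟨a, _, rfl⟩ := hx
        obtain ⟨b, _, rfl⟩ := hy
        rw [host_inl_inl]
        exact ⟨fun h => hxy (by rw [h]), Or.inl rfl⟩
      · rw [mem_image]; exact ⟨_, mem_univ _, rfl⟩
    refine lt_of_lt_of_le ?_ hlow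
    have := s.2
    apply descFactorial_strict
    · omega
    · omega
    · omega
  · intro s s' h
    rw [hval, hval] at h
    by_contra hne
    rcases Nat.lt_or_gt_of_ne (fun h => hne (Fin.ext h) : (s : ℕ) ≠ s') with hlt | hlt
    · have := descFactorial_strict (a := L + s) (b := L + s') (m := k - 1) (by omega) (by omega)
        (by omega)
      omega
    · have := descFactorial_strict (a := L + s') (b := L + s) (m := k - 1) (by omega) (by omega)
        (by omega)
      omega

/-- For every bound there is a larger irregular graph. -/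
theorem exists_large [Fintype W] (F : SimpleGraph W) (hF : F.Connected)
    (h3 : 3 ≤ Fintype.card W) (r : W) (hstar : F ≠ starGraph r) (N : ℕ) :
    ∃ n, N ≤ n ∧ ∃ G : SimpleGraph (Fin n), RootedIrregular F r G := by
  classical
  have key : ∃ M q : ℕ, ∃ c : Fin M → Option (Fin q), N ≤ 2 * M + q ∧
      RootedIrregular F r (host M q c) := by
    by_cases hdom : ∀ w, w ≠ r → F.Adj r w
    · -- there is an edge avoiding the root
      obtain ⟨c0, c1, h1, hc0, hc1⟩ : ∃ c0 c1, F.Adj c0 c1 ∧ c0 ≠ r ∧ c1 ≠ r := by
        by_contra hcon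
        push Not at hcon
        apply hstar
        ext a b
        rw [starGraph_adj]
        constructor
        · intro hab
          refine ⟨hab.ne, ?_⟩
          by_cases ha : a = r
          · exact Or.inl ha
          · exact Or.inr (hcon a b hab ha)
        · rintro ⟨hne, rfl | rfl⟩
          · exact hdom b hne.symm
          · exact (hdom a hne).symm
      exact case_dominating F hF h3 r hdom c0 c1 h1 hc0 hc1 N
    · push Not at hdom
      obtain ⟨z, hz, hrz⟩ := hdom
      exact case_nondominating F hF h3 r z hz hrz N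
  obtain ⟨M, q, c, hN, hirr⟩ := key
  refine ⟨2 * M + q, hN, (host M q c).overFin card_V, ?_⟩
  exact rootedIrregular_iso F r _ _ ((host M q c).overFinIso card_V) hirr

end Pool.Agent.Lib.MP_c25556_co
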